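import Mathlib
import Pool.Agent.Sub70.SX.Jord

/-!
# An isometric representation of a C*-algebra

(The direct sum of representations is taken from the module `Pool.Agent.H275R2.Kad5.Univ` of the
starting files.)
-/

set_option autoImplicit false

open scoped ComplexOrder InnerProductSpace ComplexConjugate ComplexStarModule
open Finset

noncomputable section

namespace Pool.Agent.Sub70.SX

universe u v

section DirectSum

variable {A : Type u} [CStarAlgebra A] {I : Type u} (K : I → Type u)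
  [∀ i, NormedAddCommGroup (K i)] [∀ i, InnerProductSpace ℂ (K i)] [∀ i, CompleteSpace (K i)]
  (π : ∀ i, A →⋆ₐ[ℂ] (K i →L[ℂ] K i))

theorem dsG_norm (i : I) (a : A) (x : K i) : ‖π i a x‖ ≤ ‖a‖ * ‖x‖ :=
  ((π i a).le_opNorm x).trans
    (mul_le_mul_of_nonneg_right (NonUnitalStarAlgHom.norm_apply_le (π i) a) (norm_nonneg x))

theorem dsG_le (a : A) (x : lp K 2) (i : I) : ‖π i a (x i)‖ ≤ ‖((‖a‖ : ℂ) • x) i‖ := by
  rw [lp.coeFn_smul, Pi.smul_apply, norm_smul]
  simpa using dsG_norm K π i a (x i)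

theorem dsG_mem (a : A) (x : lp K 2) : Memℓp (fun i => π i a (x i)) 2 :=
  (lp.memℓp ((‖a‖ : ℂ) • x)).mono' (fun i => dsG_le K π a x i)

/-- the direct sum of the operators, a linear map -/
def dsGLin (a : A) : lp K 2 →ₗ[ℂ] lp K 2 where
  toFun x := ⟨fun i => π i a (x i), dsG_mem K π a x⟩
  map_add' x y := by
    apply lp.ext
    funext i
    exact map_add (π i a) (x i) (y i)
  map_smul' c x := by
    apply lp.ext
    funext i
    exact map_smul (π i a) c (x i)

/-- the direct sum of the operators -/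
def dsGOp (a : A) : lp K 2 →L[ℂ] lp K 2 :=
  (dsGLin K π a).mkContinuous ‖a‖ (fun x => by
    have h : ‖dsGLin K π a x‖ ≤ ‖(‖a‖ : ℂ) • x‖ :=
      lp.norm_mono (by norm_num) (fun i => dsG_le K π a x i)
    rw [norm_smul] at h
    simpa using h)

theorem dsGOp_apply (a : A) (x : lp K 2) (i : I) : (dsGOp K π a x) i = π i a (x i) := rfl

/-- the direct sum of the representations -/
def dsG : A →⋆ₐ[ℂ] (lp K 2 →L[ℂ] lp K 2) where
  toFun := dsGOp K π
  map_one' := by
    apply ContinuousLinearMap.ext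
    intro x
    apply lp.ext
    funext i
    rw [dsGOp_apply, map_one]
    rfl
  map_mul' a b := by
    apply ContinuousLinearMap.ext
    intro x
    apply lp.ext
    funext i
    rw [dsGOp_apply, map_mul]
    rfl
  map_zero' := by
    apply ContinuousLinearMap.ext
    intro x
    apply lp.ext
    funext i
    rw [dsGOp_apply, map_zero]
    rfl
  map_add' a b := by
    apply ContinuousLinearMap.ext
    intro x
    apply lp.ext
    funext i
    rw [dsGOp_apply, map_add]
    rfl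
  commutes' c := by
    apply ContinuousLinearMap.ext
    intro x
    apply lp.ext
    funext i
    rw [dsGOp_apply, AlgHomClass.commutes]
    rfl
  map_star' a := by
    rw [ContinuousLinearMap.star_eq_adjoint, ContinuousLinearMap.eq_adjoint_iff]
    intro x y
    rw [lp.inner_eq_tsum, lp.inner_eq_tsum]
    congr 1
    funext i
    rw [dsGOp_apply, dsGOp_apply, map_star, ContinuousLinearMap.star_eq_adjoint,
      ContinuousLinearMap.adjoint_inner_left]

theorem dsG_apply (a : A) (x : lp K 2) (i : I) : (dsG K π a x) i = π i a (x i) := rfl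

end DirectSum


section Rep

variable {A : Type u} [CStarAlgebra A] [PartialOrder A] [StarOrderedRing A]

theorem norm_star_mul_self_le_of_gns (f : A →ₚ[ℂ] ℂ) (a : A) :
    f.gnsStarAlgHom a ((f.toPreGNS 1 : f.PreGNS) : f.GNS) =
      ((f.toPreGNS a : f.PreGNS) : f.GNS) := by
  have h : f.gnsStarAlgHom a ((f.toPreGNS 1 : f.PreGNS) : f.GNS) =
      ((f.leftMulMapPreGNS a (f.toPreGNS 1) : f.PreGNS) : f.GNS) :=
    f.gnsNonUnitalStarAlgHom_apply_coe
  rw [h, PositiveLinearMap.leftMulMapPreGNS_apply]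
  simp

/-- The positive functional of a real functional which is positive on the positive cone. -/
def posOf (φ : selfAdjoint A →ₗ[ℝ] ℝ) (hφ : ∀ x : selfAdjoint A, 0 ≤ (x : A) → 0 ≤ φ x) :
    A →ₚ[ℂ] ℂ :=
  PositiveLinearMap.mk₀ (cx φ) fun a ha => by
    have h1 : IsSelfAdjoint a := .of_nonneg ha
    have h2 := cx_sa φ ⟨a, h1⟩
    have h3 : cx φ a = (φ ⟨a, h1⟩ : ℂ) := h2
    rw [h3]
    exact_mod_cast hφ ⟨a, h1⟩ ha

theorem posOf_sa (φ : selfAdjoint A →ₗ[ℝ] ℝ) (hφ : ∀ x : selfAdjoint A, 0 ≤ (x : A) → 0 ≤ φ x)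
    (x : selfAdjoint A) : posOf φ hφ (x : A) = (φ x : ℂ) := cx_sa φ x

/-- There is a positive functional `f` with `f 1 ≤ 1` and `f (a* a) ≥ ‖a‖²`. -/
theorem exists_pos (a : A) : ∃ f : A →ₚ[ℂ] ℂ, (f 1).re ≤ 1 ∧ ‖a‖ ^ 2 ≤ (f (star a * a)).re := by
  rcases eq_or_ne a 0 with rfl | ha
  · refine ⟨0, ?_, ?_⟩
    · simp
    · simp
  obtain ⟨g, hg1, hg2⟩ := exists_dual_vector ℂ (star a * a) (by
    rw [CStarRing.norm_star_mul_self]
    have := norm_pos_iff.2 ha
    positivity)
  let g1 : selfAdjoint A →ₗ[ℝ] ℝ :=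
    { toFun := fun x => (g (x : A)).re
      map_add' := fun x y => by simp
      map_smul' := fun c x => by
        have : ((c • x : selfAdjoint A) : A) = (c : ℂ) • (x : A) := by simp
        simp only [this, map_smul, smul_eq_mul, Complex.re_ofReal_mul, RingHom.id_apply] }
  obtain ⟨φ, ψ, h1, h2, h3, h4, h5⟩ := real_jordan g1 1 zero_le_one (fun x => by
    rw [one_mul]
    refine (Complex.abs_re_le_norm _).trans ?_
    have := g.le_opNorm (x : A)
    rwa [hg1, one_mul] at this)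
  refine ⟨posOf φ h1, ?_, ?_⟩
  · have h6 := posOf_sa φ h1 1
    rw [selfAdjoint.val_one] at h6
    rw [h6, Complex.ofReal_re]
    exact h3
  · let x : selfAdjoint A := ⟨star a * a, IsSelfAdjoint.star_mul_self a⟩
    have h6 : posOf φ h1 (star a * a) = (φ x : ℂ) := posOf_sa φ h1 x
    rw [h6, Complex.ofReal_re]
    have h7 := h5 x
    have h8 : 0 ≤ ψ x := h2 x (star_mul_self_nonneg a)
    have h9 : g1 x = ‖a‖ ^ 2 := by
      show (g (star a * a)).re = _
      rw [hg2, CStarRing.norm_star_mul_self]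
      simp [sq]
    linarith

theorem gns_norm (f : A →ₚ[ℂ] ℂ) (a : A) :
    ‖((f.toPreGNS a : f.PreGNS) : f.GNS)‖ ^ 2 = (f (star a * a)).re := by
  rw [UniformSpace.Completion.norm_coe, f.preGNS_norm_def, Real.sq_sqrt]
  · rfl
  · exact (Complex.nonneg_iff.1 (f.map_nonneg (star_mul_self_nonneg _))).1

end Rep

/-- Every C*-algebra has an isometric representation. -/
theorem exists_rep (A : Type u) [CStarAlgebra A] :
    ∃ (K : Type u) (_ : NormedAddCommGroup K) (_ : InnerProductSpace ℂ K) (_ : CompleteSpace K)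
      (π : A →⋆ₐ[ℂ] (K →L[ℂ] K)), ∀ a, ‖a‖ ≤ ‖π a‖ := by
  classical
  let _ := CStarAlgebra.spectralOrder A
  have _ := CStarAlgebra.spectralOrderedRing A
  refine ⟨lp (fun f : A →ₚ[ℂ] ℂ => f.GNS) 2, inferInstance, inferInstance, inferInstance,
    dsG (fun f : A →ₚ[ℂ] ℂ => f.GNS) (fun f => f.gnsStarAlgHom), fun a => ?_⟩
  obtain ⟨f, hf1, hf2⟩ := exists_pos a
  set Ω : f.GNS := ((f.toPreGNS 1 : f.PreGNS) : f.GNS) with hΩ
  have h1 : ‖Ω‖ ≤ 1 := by
    have := gns_norm f 1
    rw [star_one, one_mul] at this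
    have h0 : ‖Ω‖ ^ 2 ≤ 1 := by rw [hΩ, this]; exact hf1
    exact (sq_le_one_iff₀ (norm_nonneg _)).1 h0
  have h2 : ‖a‖ ≤ ‖f.gnsStarAlgHom a Ω‖ := by
    rw [hΩ, norm_star_mul_self_le_of_gns]
    exact le_of_sq_le_sq (by rw [gns_norm]; exact hf2) (norm_nonneg _)
  have h3 : ‖f.gnsStarAlgHom a Ω‖ ≤
      ‖dsG (fun f : A →ₚ[ℂ] ℂ => f.GNS) (fun f => f.gnsStarAlgHom) a (lp.single 2 f Ω)‖ := by
    have h4 := lp.norm_apply_le_norm (p := 2) two_ne_zero
      (dsG (fun f : A →ₚ[ℂ] ℂ => f.GNS) (fun f => f.gnsStarAlgHom) a (lp.single 2 f Ω)) f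
    rwa [dsG_apply, lp.single_apply_self] at h4
  refine h2.trans (h3.trans ?_)
  refine (ContinuousLinearMap.le_opNorm _ _).trans ?_
  have h5 : ‖(lp.single 2 f Ω : lp (fun f : A →ₚ[ℂ] ℂ => f.GNS) 2)‖ ≤ 1 := by
    rw [lp.norm_single (by norm_num)]
    exact h1
  calc _ ≤ ‖dsG (fun f : A →ₚ[ℂ] ℂ => f.GNS) (fun f => f.gnsStarAlgHom) a‖ * 1 :=
        mul_le_mul_of_nonneg_left h5 (ContinuousLinearMap.opNorm_nonneg _)
    _ = _ := mul_one _

end Pool.Agent.Sub70.SX
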