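import Mathlib
import Pool.Agent.Sub70.SX.Rep

/-!
# Dominated positive functionals and the commutant of a GNS representation
-/

set_option autoImplicit false

open scoped ComplexOrder InnerProductSpace ComplexConjugate ComplexStarModule
open Finset UniformSpace Completion

noncomputable section

namespace Pool.Agent.Sub70.SX

universe u

variable {A : Type u} [CStarAlgebra A] [PartialOrder A] [StarOrderedRing A]

/-- The class of an element in the GNS space. -/
def cl (f : A →ₚ[ℂ] ℂ) (a : A) : f.GNS := ((f.toPreGNS a : f.PreGNS) : f.GNS)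

theorem cl_add (f : A →ₚ[ℂ] ℂ) (a b : A) : cl f (a + b) = cl f a + cl f b := by
  simp [cl, Completion.coe_add]

theorem cl_smul (f : A →ₚ[ℂ] ℂ) (t : ℂ) (a : A) : cl f (t • a) = t • cl f a := by
  simp [cl, Completion.coe_smul]

theorem inner_cl (f : A →ₚ[ℂ] ℂ) (a b : A) : ⟪cl f a, cl f b⟫_ℂ = f (star a * b) := by
  rw [cl, cl, Completion.inner_coe, f.preGNS_inner_def]
  rfl

theorem gns_cl (f : A →ₚ[ℂ] ℂ) (a b : A) : f.gnsStarAlgHom a (cl f b) = cl f (a * b) := by
  have h : f.gnsStarAlgHom a ((f.toPreGNS b : f.PreGNS) : f.GNS) =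
      ((f.leftMulMapPreGNS a (f.toPreGNS b) : f.PreGNS) : f.GNS) :=
    f.gnsNonUnitalStarAlgHom_apply_coe
  rw [cl, h, PositiveLinearMap.leftMulMapPreGNS_apply]
  rfl

theorem denseRange_cl (f : A →ₚ[ℂ] ℂ) : DenseRange (cl f) := by
  have h : (cl f) = (fun x : f.PreGNS => (x : f.GNS)) ∘ f.toPreGNS := rfl
  rw [h]
  exact UniformSpace.Completion.denseRange_coe.comp
      f.toPreGNS.surjective.denseRange (UniformSpace.Completion.continuous_coe _)

variable {ω φ : A →ₚ[ℂ] ℂ} (h : ∀ a, (φ (star a * a)).re ≤ (ω (star a * a)).re)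

/-- The identity map between two GNS spaces. -/
def Rmap (h : ∀ a, (φ (star a * a)).re ≤ (ω (star a * a)).re) : ω.GNS →L[ℂ] φ.GNS :=
  ((φ.toPreGNS.toLinearMap ∘ₗ ω.ofPreGNS.toLinearMap).mkContinuous 1 fun x => by
    rw [one_mul]
    have h1 : ‖(φ.toPreGNS.toLinearMap ∘ₗ ω.ofPreGNS.toLinearMap) x‖ =
        √(φ (star (ω.ofPreGNS x) * (ω.ofPreGNS x))).re := rfl
    have h2 : ‖x‖ = √(ω (star (ω.ofPreGNS x) * (ω.ofPreGNS x))).re := rfl
    rw [h1, h2]
    exact Real.sqrt_le_sqrt (h _)).completion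

theorem Rmap_cl (a : A) : Rmap h (cl ω a) = cl φ a := by
  rw [cl, Rmap, ContinuousLinearMap.completion_apply_coe]
  rfl

theorem Rmap_gns (a : A) (x : ω.GNS) :
    Rmap h (ω.gnsStarAlgHom a x) = φ.gnsStarAlgHom a (Rmap h x) := by
  refine (denseRange_cl ω).induction_on x ?_ ?_
  · exact isClosed_eq (by fun_prop) (by fun_prop)
  · intro b
    rw [gns_cl, Rmap_cl, Rmap_cl, gns_cl]

/-- The operator in the commutant belonging to a dominated functional. -/
def bop (h : ∀ a, (φ (star a * a)).re ≤ (ω (star a * a)).re) : ω.GNS →L[ℂ] ω.GNS :=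
  (ContinuousLinearMap.adjoint (Rmap h)) ∘L Rmap h

theorem bop_sa : IsSelfAdjoint (bop h) := by
  rw [ContinuousLinearMap.isSelfAdjoint_iff_isSymmetric]
  intro x y
  simp only [bop, ContinuousLinearMap.coe_coe, ContinuousLinearMap.comp_apply,
    ContinuousLinearMap.adjoint_inner_left, ContinuousLinearMap.adjoint_inner_right]

theorem inner_bop (a b : A) : ⟪cl ω a, bop h (cl ω b)⟫_ℂ = φ (star a * b) := by
  rw [bop, ContinuousLinearMap.comp_apply, ContinuousLinearMap.adjoint_inner_right, Rmap_cl,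
    Rmap_cl, inner_cl]

theorem bop_comm (a : A) : bop h * ω.gnsStarAlgHom a = ω.gnsStarAlgHom a * bop h := by
  refine ContinuousLinearMap.ext fun x => ?_
  refine ext_inner_left ℂ fun y => ?_
  show ⟪y, bop h (ω.gnsStarAlgHom a x)⟫_ℂ = ⟪y, ω.gnsStarAlgHom a (bop h x)⟫_ℂ
  have h1 : ⟪y, ω.gnsStarAlgHom a (bop h x)⟫_ℂ = ⟪ω.gnsStarAlgHom (star a) y, bop h x⟫_ℂ := by
    rw [map_star, ContinuousLinearMap.star_eq_adjoint, ContinuousLinearMap.adjoint_inner_left]
  rw [h1, bop, ContinuousLinearMap.comp_apply, ContinuousLinearMap.comp_apply,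
    ContinuousLinearMap.adjoint_inner_right, ContinuousLinearMap.adjoint_inner_right, Rmap_gns,
    Rmap_gns, map_star, ContinuousLinearMap.star_eq_adjoint, ContinuousLinearMap.adjoint_inner_left]

end Pool.Agent.Sub70.SX
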