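import Mathlib

/-!
# Auerbach bases of finite dimensional complex normed spaces
-/

set_option autoImplicit false

namespace Pool.Agent.Sub70.SX

open Module

/-- Every finite dimensional complex normed space has a basis of vectors of norm at most one with
coordinate functionals of norm at most one. -/
theorem auerbach (E : Type*) [NormedAddCommGroup E] [NormedSpace ℂ E] [FiniteDimensional ℂ E] :
    ∃ e : Basis (Fin (finrank ℂ E)) ℂ E, (∀ i, ‖e i‖ ≤ 1) ∧ ∀ i x, ‖e.repr x i‖ ≤ ‖x‖ := by
  classical
  have : ProperSpace E := FiniteDimensional.proper ℂ E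
  set d := finrank ℂ E
  let b : Basis (Fin d) ℂ E := finBasis ℂ E
  -- maximise the determinant
  have hcomp : IsCompact (Set.pi Set.univ (fun _ : Fin d => Metric.closedBall (0 : E) 1)) :=
    isCompact_univ_pi fun _ => isCompact_closedBall _ _
  have hcont : Continuous fun v : Fin d → E => ‖b.det v‖ := by
    refine continuous_norm.comp ?_
    have h : (fun v : Fin d → E => b.det v) = fun v => (b.toMatrix v).det := by
      ext v
      rw [Basis.det_apply]
    change Continuous (fun v : Fin d → E => b.det v)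
    rw [h]
    refine Continuous.matrix_det ?_
    refine continuous_matrix fun i j => ?_
    have h1 : Continuous fun x : E => b.repr x i := by
      exact (LinearMap.continuous_of_finiteDimensional (b.coord i))
    exact h1.comp (continuous_apply j)
  obtain ⟨v, hv, hmax⟩ := hcomp.exists_isMaxOn ⟨fun _ => 0, fun i _ => by simp⟩ hcont.continuousOn
  have hv1 : ∀ i, ‖v i‖ ≤ 1 := fun i => by simpa using hv i (Set.mem_univ i)
  have hpos : 0 < ‖b.det v‖ := by
    have h1 : (fun i => ((‖b i‖⁻¹ : ℝ) : ℂ) • b i) ∈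
        Set.pi Set.univ (fun _ : Fin d => Metric.closedBall (0 : E) 1) := by
      intro i _
      have hne : ‖b i‖ ≠ 0 := norm_ne_zero_iff.2 (b.ne_zero i)
      simp only [Metric.mem_closedBall, dist_zero_right, norm_smul, Complex.norm_real, norm_inv,
        norm_norm]
      rw [inv_mul_cancel₀ hne]
    refine lt_of_lt_of_le ?_ (hmax h1)
    have h2 : b.det (fun i => ((‖b i‖⁻¹ : ℝ) : ℂ) • b i) = ∏ i, ((‖b i‖⁻¹ : ℝ) : ℂ) := by
      have := b.det.toMultilinearMap.map_smul_univ (fun i => ((‖b i‖⁻¹ : ℝ) : ℂ)) b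
      simp only [AlternatingMap.coe_multilinearMap] at this
      rw [this, Basis.det_self, smul_eq_mul, mul_one]
    show 0 < ‖b.det (fun i => ((‖b i‖⁻¹ : ℝ) : ℂ) • b i)‖
    rw [h2, norm_prod]
    refine Finset.prod_pos fun i _ => ?_
    have hne : 0 < ‖b i‖ := norm_pos_iff.2 (b.ne_zero i)
    rw [Complex.norm_real, norm_inv, norm_norm]
    positivity
  have hdet : IsUnit (b.det v) := isUnit_iff_ne_zero.2 (norm_pos_iff.1 hpos)
  obtain ⟨hli, hsp⟩ := (Module.Basis.is_basis_iff_det b).2 hdet
  refine ⟨Basis.mk hli hsp.ge, fun i => by rw [Basis.mk_apply]; exact hv1 i, fun i x => ?_⟩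
  have key : ∀ y : E, b.det v * (Basis.mk hli hsp.ge).repr y i = b.det (Function.update v i y) := by
    intro y
    have h := congrArg (fun l : E →ₗ[ℂ] ℂ => l y)
      (Basis.det_smul_mk_coord_eq_det_update b hli hsp.ge i)
    simpa using h
  have hle : ∀ y : E, ‖y‖ ≤ 1 → ‖(Basis.mk hli hsp.ge).repr y i‖ ≤ 1 := by
    intro y hy
    have h1 : Function.update v i y ∈
        Set.pi Set.univ (fun _ : Fin d => Metric.closedBall (0 : E) 1) := by
      intro j _
      by_cases h : j = i
      · subst h
        simpa using hy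
      · rw [Function.update_of_ne h]
        exact hv j (Set.mem_univ j)
    have h2 : ‖b.det (Function.update v i y)‖ ≤ ‖b.det v‖ := hmax h1
    rw [← key y, norm_mul] at h2
    by_contra hcon
    push Not at hcon
    have := mul_lt_mul_of_pos_left hcon hpos
    linarith
  rcases eq_or_ne x 0 with rfl | hx
  · rw [map_zero, Finsupp.zero_apply, norm_zero, norm_zero]
  · have hx' : ‖x‖ ≠ 0 := norm_ne_zero_iff.2 hx
    have h3 := hle (((‖x‖⁻¹ : ℝ) : ℂ) • x) (by
      rw [norm_smul, Complex.norm_real, norm_inv, norm_norm, inv_mul_cancel₀ hx'])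
    rw [map_smul, Finsupp.smul_apply, norm_smul, Complex.norm_real, norm_inv, norm_norm] at h3
    have h4 : 0 < ‖x‖ := norm_pos_iff.2 hx
    rwa [inv_mul_le_iff₀ h4, mul_one] at h3

end Pool.Agent.Sub70.SX
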