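import Mathlib
import Pool.Agent.Sub70.SX.Auerbach

/-!
# The power trick: the maximal norm is bounded by the minimal norm for subexponential filtrations
-/

set_option autoImplicit false
set_option linter.unusedSectionVars false

open scoped TensorProduct InnerProductSpace
open TensorProduct Module

namespace Pool.Agent.Sub70.SX

universe u v w

variable {A : Type u} [CStarAlgebra A]
  {K : Type v} [NormedAddCommGroup K] [InnerProductSpace ℂ K] [CompleteSpace K]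
  {H : Type w} [NormedAddCommGroup H] [InnerProductSpace ℂ H] [CompleteSpace H]

/-- `P = ∑ π (f i) ⊗ c i` and `P' = ∑ σ (f i) c i` with `f i ∈ V` and `c i` in the commutant of
`σ (A)`. -/
def Corr (π : A →⋆ₐ[ℂ] (K →L[ℂ] K)) (σ : A →⋆ₐ[ℂ] (H →L[ℂ] H)) (V : Submodule ℂ A)
    (P : K ⊗[ℂ] H →L[ℂ] K ⊗[ℂ] H) (P' : H →L[ℂ] H) : Prop :=
  ∃ (ι : Type) (_ : Fintype ι) (f : ι → A) (c : ι → (H →L[ℂ] H)), (∀ i, f i ∈ V) ∧
    (∀ i a, c i * σ a = σ a * c i) ∧ P = ∑ i, mapL (π (f i)) (c i) ∧ P' = ∑ i, σ (f i) * c i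

variable {π : A →⋆ₐ[ℂ] (K →L[ℂ] K)} {σ : A →⋆ₐ[ℂ] (H →L[ℂ] H)}

theorem Corr.one {V : Submodule ℂ A} (h : (1 : A) ∈ V) : Corr π σ V 1 1 := by
  refine ⟨Unit, inferInstance, fun _ => 1, fun _ => 1, fun _ => h, fun _ _ => by simp, ?_, ?_⟩
  · simp only [map_one, Finset.univ_unique, Finset.sum_const, Finset.card_singleton, one_smul]
    exact (mapL_id_id).symm
  · simp

theorem Corr.add {V : Submodule ℂ A} {P Q : K ⊗[ℂ] H →L[ℂ] K ⊗[ℂ] H} {P' Q' : H →L[ℂ] H}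
    (h1 : Corr π σ V P P') (h2 : Corr π σ V Q Q') : Corr π σ V (P + Q) (P' + Q') := by
  obtain ⟨ι, _, f, c, hf, hc, rfl, rfl⟩ := h1
  obtain ⟨κ, _, g, d, hg, hd, rfl, rfl⟩ := h2
  refine ⟨ι ⊕ κ, inferInstance, Sum.elim f g, Sum.elim c d, ?_, ?_, ?_, ?_⟩
  · rintro (i | i)
    exacts [hf i, hg i]
  · rintro (i | i)
    exacts [hc i, hd i]
  · simp
  · simp

theorem Corr.smul {V : Submodule ℂ A} {P : K ⊗[ℂ] H →L[ℂ] K ⊗[ℂ] H} {P' : H →L[ℂ] H}
    (h1 : Corr π σ V P P') (t : ℂ) : Corr π σ V (t • P) (t • P') := by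
  obtain ⟨ι, _, f, c, hf, hc, rfl, rfl⟩ := h1
  refine ⟨ι, inferInstance, f, fun i => t • c i, hf, ?_, ?_, ?_⟩
  · intro i a
    rw [smul_mul_assoc, hc, mul_smul_comm]
  · have h : ∀ i, mapL (π (f i)) (t • c i) = t • mapL (π (f i)) (c i) :=
      fun i => mapL_smul_right _ _ _
    simp only [h]
    refine ContinuousLinearMap.ext fun x => ?_
    simp only [_root_.smul_apply, _root_.sum_apply, Finset.smul_sum]
  · rw [Finset.smul_sum]
    exact Finset.sum_congr rfl fun i _ => by rw [mul_smul_comm]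

theorem mapL_sum_left {ι : Type} (s : Finset ι) (f : ι → (K →L[ℂ] K)) (c : H →L[ℂ] H) :
    mapL (∑ i ∈ s, f i) c = ∑ i ∈ s, mapL (f i) c := by
  classical
  induction s using Finset.induction_on with
  | empty => simp
  | insert i s hi ih => rw [Finset.sum_insert hi, Finset.sum_insert hi, mapL_add_left, ih]

theorem mapL_sum_right {ι : Type} (s : Finset ι) (f : K →L[ℂ] K) (c : ι → (H →L[ℂ] H)) :
    mapL f (∑ i ∈ s, c i) = ∑ i ∈ s, mapL f (c i) := by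
  classical
  induction s using Finset.induction_on with
  | empty => simp
  | insert i s hi ih => rw [Finset.sum_insert hi, Finset.sum_insert hi, mapL_add_right, ih]

theorem Corr.mul {V W U : Submodule ℂ A} (hVW : ∀ x ∈ V, ∀ y ∈ W, x * y ∈ U)
    {P Q : K ⊗[ℂ] H →L[ℂ] K ⊗[ℂ] H} {P' Q' : H →L[ℂ] H}
    (h1 : Corr π σ V P P') (h2 : Corr π σ W Q Q') : Corr π σ U (P * Q) (P' * Q') := by
  obtain ⟨ι, _, f, c, hf, hc, rfl, rfl⟩ := h1
  obtain ⟨κ, _, g, d, hg, hd, rfl, rfl⟩ := h2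
  refine ⟨ι × κ, inferInstance, fun p => f p.1 * g p.2, fun p => c p.1 * d p.2, ?_, ?_, ?_, ?_⟩
  · exact fun p => hVW _ (hf _) _ (hg _)
  · intro p a
    rw [mul_assoc, hd, ← mul_assoc, hc, mul_assoc]
  · rw [Finset.sum_mul_sum, Fintype.sum_prod_type]
    refine Finset.sum_congr rfl fun i _ => Finset.sum_congr rfl fun j _ => ?_
    rw [map_mul, mapL_mul]
  · rw [Finset.sum_mul_sum, Fintype.sum_prod_type]
    refine Finset.sum_congr rfl fun i _ => Finset.sum_congr rfl fun j _ => ?_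
    rw [map_mul, mul_assoc, ← mul_assoc (c i), hc, mul_assoc, mul_assoc]

theorem norm_le_of_inner {E : Type*} [NormedAddCommGroup E] [InnerProductSpace ℂ E] {v : E} {C : ℝ}
    (hC : 0 ≤ C) (h : ∀ u : E, ‖⟪u, v⟫_ℂ‖ ≤ C * ‖u‖) : ‖v‖ ≤ C := by
  rcases eq_or_ne v 0 with rfl | hv
  · simpa using hC
  · have h1 := h v
    rw [inner_self_eq_norm_sq_to_K] at h1
    have h2 : 0 < ‖v‖ := norm_pos_iff.2 hv
    simp only [RCLike.ofReal_eq_complex_ofReal, norm_pow, Complex.norm_real, norm_norm] at h1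
    nlinarith

/-- The crude bound by the dimension. -/
theorem Corr.norm_le (hπ : ∀ a, ‖a‖ ≤ ‖π a‖) {V : Submodule ℂ A} [FiniteDimensional ℂ V]
    {P : K ⊗[ℂ] H →L[ℂ] K ⊗[ℂ] H} {P' : H →L[ℂ] H} (h : Corr π σ V P P') :
    ‖P'‖ ≤ finrank ℂ V * ‖P‖ := by
  obtain ⟨ι, _, f, c, hf, hc, hP, rfl⟩ := h
  obtain ⟨e, he1, he2⟩ := auerbach V
  let f' : ι → V := fun i => ⟨f i, hf i⟩
  let c' : Fin (finrank ℂ V) → (H →L[ℂ] H) := fun k => ∑ i, e.repr (f' i) k • c i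
  have hfe : ∀ i, f i = ∑ k, e.repr (f' i) k • (e k : A) := by
    intro i
    have h1 := congrArg (fun x : V => (x : A)) (e.sum_repr (f' i))
    simp only [Submodule.coe_sum, Submodule.coe_smul] at h1
    exact h1.symm
  have hP' : ∑ i, σ (f i) * c i = ∑ k, σ (e k : A) * c' k := by
    simp only [c', Finset.mul_sum]
    rw [Finset.sum_comm]
    refine Finset.sum_congr rfl fun i _ => ?_
    conv_lhs => rw [hfe i]
    rw [map_sum, Finset.sum_mul]
    refine Finset.sum_congr rfl fun k _ => ?_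
    rw [map_smul, smul_mul_assoc, mul_smul_comm]
  have hc' : ∀ k, ‖c' k‖ ≤ ‖P‖ := by
    intro k
    have hP0 : 0 ≤ ‖P‖ := P.opNorm_nonneg
    refine ContinuousLinearMap.opNorm_le_bound _ hP0 fun x => ?_
    refine norm_le_of_inner (by positivity) fun y => ?_
    let w' : V := ∑ i, ⟪y, c i x⟫_ℂ • f' i
    have h1 : ⟪y, c' k x⟫_ℂ = e.repr w' k := by
      simp only [c', w', _root_.sum_apply, _root_.smul_apply, inner_sum,
        inner_smul_right, map_sum, map_smul, Finsupp.coe_finsetSum, Finset.sum_apply,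
        Finsupp.smul_apply, smul_eq_mul]
      exact Finset.sum_congr rfl fun i _ => mul_comm _ _
    rw [h1]
    refine (he2 k w').trans ?_
    have h2 : (w' : A) = ∑ i, ⟪y, c i x⟫_ℂ • f i := by
      simp only [w', f', Submodule.coe_sum, Submodule.coe_smul]
    rw [Submodule.coe_norm]
    refine (hπ _).trans ?_
    refine ContinuousLinearMap.opNorm_le_bound _ (by positivity) fun α => ?_
    refine norm_le_of_inner (by positivity) fun β => ?_
    have h3 : ⟪β, π (w' : A) α⟫_ℂ = ⟪β ⊗ₜ[ℂ] y, P (α ⊗ₜ[ℂ] x)⟫_ℂ := by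
      rw [hP, h2]
      simp only [map_sum, map_smul, _root_.sum_apply, _root_.smul_apply,
        inner_sum, inner_smul_right, mapL_tmul, inner_tmul]
      exact Finset.sum_congr rfl fun i _ => mul_comm _ _
    rw [h3]
    have h4 : ‖P (α ⊗ₜ[ℂ] x)‖ ≤ ‖P‖ * (‖α‖ * ‖x‖) := by
      have := P.le_opNorm (α ⊗ₜ[ℂ] x)
      rwa [TensorProduct.norm_tmul] at this
    have h5 : ‖⟪β ⊗ₜ[ℂ] y, P (α ⊗ₜ[ℂ] x)⟫_ℂ‖ ≤ (‖β‖ * ‖y‖) * ‖P (α ⊗ₜ[ℂ] x)‖ := by
      rw [← TensorProduct.norm_tmul (𝕜 := ℂ) β y]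
      exact norm_inner_le_norm (𝕜 := ℂ) (E := K ⊗[ℂ] H) _ _
    have hβ := norm_nonneg β
    have hy := norm_nonneg y
    generalize ‖P (α ⊗ₜ[ℂ] x)‖ = r at h4 h5
    generalize ‖⟪β ⊗ₜ[ℂ] y, P (α ⊗ₜ[ℂ] x)⟫_ℂ‖ = q at h5 ⊢
    generalize ‖P‖ = p at h4 hP0 ⊢
    generalize ‖x‖ = x' at *
    generalize ‖y‖ = y' at *
    generalize ‖α‖ = a' at *
    generalize ‖β‖ = b' at *
    calc q ≤ (b' * y') * r := h5
      _ ≤ (b' * y') * (p * (a' * x')) := mul_le_mul_of_nonneg_left h4 (by positivity)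
      _ = p * x' * y' * a' * b' := by ring
  rw [hP']
  calc ‖∑ k, σ (e k : A) * c' k‖ ≤ ∑ k, ‖σ (e k : A) * c' k‖ := norm_sum_le _ _
    _ ≤ ∑ _k : Fin (finrank ℂ V), ‖P‖ := by
        refine Finset.sum_le_sum fun k _ => ?_
        calc ‖σ (e k : A) * c' k‖ ≤ ‖σ (e k : A)‖ * ‖c' k‖ := norm_mul_le _ _
          _ ≤ 1 * ‖P‖ := by
              refine mul_le_mul ?_ (hc' k) (norm_nonneg _) zero_le_one
              exact (NonUnitalStarAlgHom.norm_apply_le σ _).trans (he1 k)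
          _ = ‖P‖ := one_mul _
    _ = finrank ℂ V * ‖P‖ := by simp

end Pool.Agent.Sub70.SX
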