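import Mathlib
import Pool.Agent.Sub70.SX.Core

/-!
# The power trick
-/

set_option autoImplicit false
set_option linter.unusedSectionVars false

open scoped TensorProduct InnerProductSpace Topology
open TensorProduct Module Filter

namespace Pool.Agent.Sub70.SX

universe u v w

variable {A : Type u} [CStarAlgebra A]
  {K : Type v} [NormedAddCommGroup K] [InnerProductSpace ℂ K] [CompleteSpace K]
  {H : Type w} [NormedAddCommGroup H] [InnerProductSpace ℂ H] [CompleteSpace H]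

variable {π : A →⋆ₐ[ℂ] (K →L[ℂ] K)} {σ : A →⋆ₐ[ℂ] (H →L[ℂ] H)}

theorem Corr.mono {V W : Submodule ℂ A} (hVW : V ≤ W) {P : K ⊗[ℂ] H →L[ℂ] K ⊗[ℂ] H}
    {P' : H →L[ℂ] H} (h : Corr π σ V P P') : Corr π σ W P P' := by
  obtain ⟨ι, i1, f, c, hf, hc, hP, hP'⟩ := h
  exact ⟨ι, i1, f, c, fun i => hVW (hf i), hc, hP, hP'⟩

theorem Corr.pow {F : ℕ → Submodule ℂ A} (hone : (1 : A) ∈ F 0)
    (hmul : ∀ m n : ℕ, ∀ x ∈ F m, ∀ y ∈ F n, x * y ∈ F (m + n)) {m : ℕ}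
    {P : K ⊗[ℂ] H →L[ℂ] K ⊗[ℂ] H} {P' : H →L[ℂ] H} (h : Corr π σ (F m) P P') (n : ℕ) :
    Corr π σ (F (m * n)) (P ^ n) (P' ^ n) := by
  induction n with
  | zero => simpa using Corr.one hone
  | succ n ih =>
    rw [pow_succ, pow_succ, Nat.mul_succ]
    exact Corr.mul (hmul _ _) ih h

theorem opNorm_pow_le (P : K ⊗[ℂ] H →L[ℂ] K ⊗[ℂ] H) (n : ℕ) (hn : n ≠ 0) : ‖P ^ n‖ ≤ ‖P‖ ^ n := by
  induction n with
  | zero => exact absurd rfl hn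
  | succ n ih =>
    rcases Nat.eq_zero_or_pos n with rfl | hn'
    · simp
    · rw [pow_succ, pow_succ]
      have h1 : ‖P ^ n * P‖ ≤ ‖P ^ n‖ * ‖P‖ := ContinuousLinearMap.opNorm_comp_le _ _
      have h2 := ih hn'.ne'
      have h3 : 0 ≤ ‖P‖ := P.opNorm_nonneg
      exact h1.trans (mul_le_mul_of_nonneg_right h2 h3)

theorem growth {d : ℕ → ℕ}
    (h : Tendsto (fun n : ℕ => ((d n : ℕ) : ℝ) ^ (1 / (n : ℝ))) atTop (𝓝 1)) {δ : ℝ} (hδ : 0 < δ) :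
    ∀ᶠ n in atTop, (d n : ℝ) ≤ (1 + δ) ^ n := by
  have h1 : ∀ᶠ n : ℕ in atTop, ((d n : ℕ) : ℝ) ^ (1 / (n : ℝ)) < 1 + δ :=
    h.eventually (Iio_mem_nhds (by linarith))
  filter_upwards [h1, eventually_ge_atTop 1] with n h2 h3
  have h4 : (d n : ℝ) = (((d n : ℕ) : ℝ) ^ (1 / (n : ℝ))) ^ n := by
    rw [← Real.rpow_natCast, ← Real.rpow_mul (Nat.cast_nonneg _), one_div,
      inv_mul_cancel₀ (by positivity), Real.rpow_one]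
  rw [h4]
  exact pow_le_pow_left₀ (by positivity) h2.le n

/-- The power trick. -/
theorem Corr.norm_le_norm (hπ : ∀ a, ‖a‖ ≤ ‖π a‖) {F : ℕ → Submodule ℂ A} (hmono : Monotone F)
    (hone : (1 : A) ∈ F 0)
    (hmul : ∀ m n : ℕ, ∀ x ∈ F m, ∀ y ∈ F n, x * y ∈ F (m + n))
    (hfin : ∀ n : ℕ, FiniteDimensional ℂ (F n))
    (hgrow : Tendsto (fun n : ℕ => ((finrank ℂ (F n) : ℕ) : ℝ) ^ (1 / (n : ℝ))) atTop (𝓝 1))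
    {m : ℕ} {P : K ⊗[ℂ] H →L[ℂ] K ⊗[ℂ] H} {P' : H →L[ℂ] H} (h : Corr π σ (F m) P P')
    (hsa : IsSelfAdjoint P') : ‖P'‖ ≤ ‖P‖ := by
  have h0 : Corr π σ (F (m + 1)) P P' := h.mono (hmono (Nat.le_succ m))
  have hP0 : 0 ≤ ‖P‖ := P.opNorm_nonneg
  have key : ∀ δ : ℝ, 0 < δ → ‖P'‖ ≤ (1 + δ) ^ (m + 1) * ‖P‖ := by
    intro δ hδ
    have h1 := growth hgrow hδ
    have h2 : Tendsto (fun k : ℕ => (m + 1) * 2 ^ k) atTop atTop := by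
      refine Tendsto.const_mul_atTop' (Nat.succ_pos m) ?_
      exact tendsto_pow_atTop_atTop_of_one_lt one_lt_two
    obtain ⟨k, hk⟩ := (h2.eventually h1).exists
    have h3 := (h0.pow hone hmul (2 ^ k)).norm_le hπ
    have h4 : ‖P' ^ (2 ^ k)‖ = ‖P'‖ ^ (2 ^ k) := hsa.norm_pow_two_pow k
    have h5 := opNorm_pow_le P (2 ^ k) (by positivity)
    have h6 : ‖P'‖ ^ (2 ^ k) ≤ ((1 + δ) ^ (m + 1) * ‖P‖) ^ (2 ^ k) := by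
      rw [← h4, mul_pow, ← pow_mul]
      refine h3.trans ?_
      exact mul_le_mul hk h5 (ContinuousLinearMap.opNorm_nonneg _) (by positivity)
    exact (pow_le_pow_iff_left₀ (norm_nonneg _) (by positivity) (by positivity)).1 h6
  have h7 : Tendsto (fun δ : ℝ => (1 + δ) ^ (m + 1) * ‖P‖) (𝓝[>] 0) (𝓝 ((1 + 0) ^ (m + 1) * ‖P‖)) := by
    refine tendsto_nhdsWithin_of_tendsto_nhds ?_
    exact (((continuous_const.add continuous_id).pow _).mul continuous_const).tendsto _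
  rw [add_zero, one_pow, one_mul] at h7
  exact ge_of_tendsto h7 (eventually_nhdsWithin_of_forall key)

theorem opNorm_one_add_le {P : K ⊗[ℂ] H →L[ℂ] K ⊗[ℂ] H} (hneg : ∀ ζ : K ⊗[ℂ] H, (⟪ζ, P ζ⟫_ℂ).re ≤ 0)
    {t : ℝ} (ht : 0 ≤ t) : ‖(1 : K ⊗[ℂ] H →L[ℂ] K ⊗[ℂ] H) + (t : ℂ) • P‖ ≤ 1 + t ^ 2 * ‖P‖ ^ 2 := by
  refine ContinuousLinearMap.opNorm_le_bound _ (by positivity) fun ζ => ?_
  have h1 : ((1 : K ⊗[ℂ] H →L[ℂ] K ⊗[ℂ] H) + (t : ℂ) • P) ζ = ζ + (t : ℂ) • P ζ := rfl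
  rw [h1]
  have h2 := norm_add_sq (𝕜 := ℂ) (E := K ⊗[ℂ] H) ζ ((t : ℂ) • P ζ)
  have e : ⟪ζ, (t : ℂ) • P ζ⟫_ℂ = (t : ℂ) * ⟪ζ, P ζ⟫_ℂ :=
    inner_smul_right (E := K ⊗[ℂ] H) ζ (P ζ) (t : ℂ)
  rw [e] at h2
  have h3 : RCLike.re ((t : ℂ) * ⟪ζ, P ζ⟫_ℂ) ≤ 0 := by
    have : RCLike.re ((t : ℂ) * ⟪ζ, P ζ⟫_ℂ) = t * (⟪ζ, P ζ⟫_ℂ).re := by
      exact Complex.re_ofReal_mul _ _
    rw [this]
    exact mul_nonpos_of_nonneg_of_nonpos ht (hneg ζ)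
  have h4 : ‖(t : ℂ) • P ζ‖ ≤ t * (‖P‖ * ‖ζ‖) := by
    have e2 : ‖(t : ℂ) • P ζ‖ = ‖(t : ℂ)‖ * ‖P ζ‖ := norm_smul (β := K ⊗[ℂ] H) (t : ℂ) (P ζ)
    rw [e2, Complex.norm_real, Real.norm_of_nonneg ht]
    exact mul_le_mul_of_nonneg_left (P.le_opNorm ζ) ht
  have h5 : 0 ≤ ‖(t : ℂ) • P ζ‖ := norm_nonneg _
  have h6 : 0 ≤ ‖P‖ := P.opNorm_nonneg
  have h7 : 0 ≤ ‖ζ‖ := norm_nonneg _
  have h8 : ‖(t : ℂ) • P ζ‖ ^ 2 ≤ (t * (‖P‖ * ‖ζ‖)) ^ 2 := pow_le_pow_left₀ h5 h4 2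
  refine le_of_sq_le_sq ?_ (by positivity)
  have h9 : ‖ζ + (t : ℂ) • P ζ‖ ^ 2 ≤ ‖ζ‖ ^ 2 + (t * (‖P‖ * ‖ζ‖)) ^ 2 := by
    rw [h2]
    linarith
  refine h9.trans ?_
  have h10 : 0 ≤ t ^ 2 * ‖P‖ ^ 2 * ‖ζ‖ ^ 2 := by positivity
  have h11 : 0 ≤ (t ^ 2 * ‖P‖ ^ 2) ^ 2 * ‖ζ‖ ^ 2 := by positivity
  nlinarith

/-- Operators which are negative in the minimal representation are negative in every
representation. -/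
theorem Corr.re_inner_nonpos (hπ : ∀ a, ‖a‖ ≤ ‖π a‖) {F : ℕ → Submodule ℂ A} (hmono : Monotone F)
    (hone : (1 : A) ∈ F 0)
    (hmul : ∀ m n : ℕ, ∀ x ∈ F m, ∀ y ∈ F n, x * y ∈ F (m + n))
    (hfin : ∀ n : ℕ, FiniteDimensional ℂ (F n))
    (hgrow : Tendsto (fun n : ℕ => ((finrank ℂ (F n) : ℕ) : ℝ) ^ (1 / (n : ℝ))) atTop (𝓝 1))
    {m : ℕ} {P : K ⊗[ℂ] H →L[ℂ] K ⊗[ℂ] H} {P' : H →L[ℂ] H} (h : Corr π σ (F m) P P')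
    (hsa : IsSelfAdjoint P') (hneg : ∀ ζ : K ⊗[ℂ] H, (⟪ζ, P ζ⟫_ℂ).re ≤ 0) (ξ : H) :
    (⟪ξ, P' ξ⟫_ℂ).re ≤ 0 := by
  have h6 : 0 ≤ ‖P‖ := P.opNorm_nonneg
  have key : ∀ t : ℝ, 0 < t → (⟪ξ, P' ξ⟫_ℂ).re ≤ t * (‖P‖ ^ 2 * ‖ξ‖ ^ 2) := by
    intro t ht
    have h1 : Corr π σ (F m) (1 + (t : ℂ) • P) (1 + (t : ℂ) • P') :=
      (Corr.one (hmono (Nat.zero_le m) hone)).add (h.smul t)
    have h2 : IsSelfAdjoint (1 + (t : ℂ) • P') := by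
      refine (IsSelfAdjoint.one _).add ?_
      rw [IsSelfAdjoint, star_smul, hsa.star_eq]
      simp
    have h3 := (h1.norm_le_norm hπ hmono hone hmul hfin hgrow h2).trans (opNorm_one_add_le hneg ht.le)
    have h4 : ‖⟪ξ, (1 + (t : ℂ) • P') ξ⟫_ℂ‖ ≤ ‖ξ‖ * (‖(1 + (t : ℂ) • P')‖ * ‖ξ‖) :=
      (norm_inner_le_norm _ _).trans
        (mul_le_mul_of_nonneg_left (ContinuousLinearMap.le_opNorm _ _) (norm_nonneg _))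
    have h5 : (⟪ξ, (1 + (t : ℂ) • P') ξ⟫_ℂ).re = ‖ξ‖ ^ 2 + t * (⟪ξ, P' ξ⟫_ℂ).re := by
      have e1 : (1 + (t : ℂ) • P') ξ = ξ + (t : ℂ) • P' ξ := rfl
      rw [e1, inner_add_right, inner_smul_right, Complex.add_re, Complex.re_ofReal_mul]
      congr 1
      exact inner_self_eq_norm_sq (𝕜 := ℂ) ξ
    have h7 := (Complex.re_le_norm _).trans h4
    rw [h5] at h7
    have h8 : ‖ξ‖ * (‖(1 + (t : ℂ) • P')‖ * ‖ξ‖) ≤ (1 + t ^ 2 * ‖P‖ ^ 2) * ‖ξ‖ ^ 2 := by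
      have : ‖ξ‖ * (‖(1 + (t : ℂ) • P')‖ * ‖ξ‖) = ‖(1 + (t : ℂ) • P')‖ * ‖ξ‖ ^ 2 := by ring
      rw [this]
      exact mul_le_mul_of_nonneg_right h3 (by positivity)
    have h9 : t * (⟪ξ, P' ξ⟫_ℂ).re ≤ t * (t * (‖P‖ ^ 2 * ‖ξ‖ ^ 2)) := by
      nlinarith
    exact le_of_mul_le_mul_left h9 ht
  have h7 : Tendsto (fun t : ℝ => t * (‖P‖ ^ 2 * ‖ξ‖ ^ 2)) (𝓝[>] 0) (𝓝 (0 * (‖P‖ ^ 2 * ‖ξ‖ ^ 2))) :=
    tendsto_nhdsWithin_of_tendsto_nhds ((continuous_id.mul continuous_const).tendsto _)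
  rw [zero_mul] at h7
  exact ge_of_tendsto h7 (eventually_nhdsWithin_of_forall key)

end Pool.Agent.Sub70.SX
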