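import Mathlib
import Pool.Agent.Sub70.SX.Gns
import Pool.Agent.Sub70.SX.Power

/-!
# Separation
-/

set_option autoImplicit false
set_option linter.unusedSectionVars false

open scoped ComplexOrder InnerProductSpace ComplexConjugate ComplexStarModule TensorProduct Topology
open Finset TensorProduct Module Filter

noncomputable section

namespace Pool.Agent.Sub70.SX

universe u v

variable {A : Type u} [CStarAlgebra A]
  {K : Type v} [NormedAddCommGroup K] [InnerProductSpace ℂ K] [CompleteSpace K]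

/-- The map `c ↦ ∑ ⟪α l, π c (α i)⟫ y l* y i`, the sum over pairs in the same block. -/
def mapOf (π : A →⋆ₐ[ℂ] (K →L[ℂ] K)) {I : Type} [Fintype I] {J : Type} [DecidableEq J]
    (β : I → J) (α : I → K) (y : I → A) (c : A) : A :=
  ∑ i, ∑ l, if β i = β l then ⟪α l, π c (α i)⟫_ℂ • (star (y l) * y i) else 0

/-- The values of the maps `mapOf` at a tuple. -/
def vals (π : A →⋆ₐ[ℂ] (K →L[ℂ] K)) {r : ℕ} (s : Fin r → A) : Set (Fin r → A) :=
  {v | ∃ (I : Type) (_ : Fintype I) (J : Type) (_ : Fintype J) (_ : DecidableEq J)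
    (β : I → J) (α : I → K) (y : I → A), ∀ j, v j = mapOf π β α y (s j)}

variable {π : A →⋆ₐ[ℂ] (K →L[ℂ] K)} {r : ℕ} {s : Fin r → A}

theorem vals_zero : (0 : Fin r → A) ∈ vals π s := by
  refine ⟨Empty, inferInstance, Empty, inferInstance, inferInstance, id, fun i => i.elim,
    fun i => i.elim, fun j => ?_⟩
  simp [mapOf]

theorem vals_add {v w : Fin r → A} (hv : v ∈ vals π s) (hw : w ∈ vals π s) : v + w ∈ vals π s := by
  obtain ⟨I, _, J, _, _, β, α, y, hv⟩ := hv
  obtain ⟨I', _, J', _, _, β', α', y', hw⟩ := hw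
  refine ⟨I ⊕ I', inferInstance, J ⊕ J', inferInstance, inferInstance, Sum.map β β',
    Sum.elim α α', Sum.elim y y', fun j => ?_⟩
  rw [Pi.add_apply, hv, hw]
  simp [mapOf]

theorem vals_smul {v : Fin r → A} (hv : v ∈ vals π s) {t : ℝ} (ht : 0 ≤ t) : t • v ∈ vals π s := by
  obtain ⟨I, _, J, _, _, β, α, y, hv⟩ := hv
  refine ⟨I, inferInstance, J, inferInstance, inferInstance, β,
    fun i => ((√t : ℝ) : ℂ) • α i, y, fun j => ?_⟩
  rw [Pi.smul_apply, hv]
  simp only [mapOf, Finset.smul_sum]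
  refine Finset.sum_congr rfl fun i _ => Finset.sum_congr rfl fun l _ => ?_
  split_ifs with h
  · rw [map_smul, inner_smul_left, inner_smul_right, Complex.conj_ofReal, ← mul_assoc,
      ← Complex.ofReal_mul, Real.mul_self_sqrt ht, mul_smul, Complex.coe_smul]
  · rw [smul_zero]

theorem mapOf_sa {I : Type} [Fintype I] {J : Type} [DecidableEq J]
    (β : I → J) (α : I → K) (y : I → A) {c : A} (hc : IsSelfAdjoint c) :
    IsSelfAdjoint (mapOf π β α y c) := by
  rw [IsSelfAdjoint, mapOf, star_sum]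
  simp only [star_sum]
  rw [Finset.sum_comm]
  refine Finset.sum_congr rfl fun i _ => Finset.sum_congr rfl fun l _ => ?_
  by_cases h : β i = β l
  · rw [if_pos h, if_pos h.symm, star_smul, star_mul, star_star]
    congr 1
    have h1 : ContinuousLinearMap.adjoint (π c) = π c := by
      rw [← ContinuousLinearMap.star_eq_adjoint, ← map_star, hc.star_eq]
    rw [RCLike.star_def, inner_conj_symm, ← ContinuousLinearMap.adjoint_inner_right, h1]
  · rw [if_neg h, if_neg (Ne.symm h), star_zero]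

theorem convex_vals : Convex ℝ (vals π s) := by
  intro v hv w hw a b ha hb _
  exact vals_add (vals_smul hv ha) (vals_smul hw hb)

/-- Separation of a tuple from the closed convex cone of values. -/
theorem exists_sep (h : s ∉ closure (vals π s)) :
    ∃ f : StrongDual ℝ (Fin r → A), (∀ v ∈ vals π s, f v ≤ 0) ∧ 0 < f s := by
  obtain ⟨f, u, h1, h2⟩ := geometric_hahn_banach_closed_point convex_vals.closure isClosed_closure h
  have h3 : 0 < u := by
    have := h1 0 (subset_closure vals_zero)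
    rwa [map_zero] at this
  refine ⟨f, fun v hv => ?_, h3.trans h2⟩
  by_contra hcon
  push Not at hcon
  have h4 := h1 ((u / f v) • v) (subset_closure (vals_smul hv (by positivity)))
  rw [map_smul, smul_eq_mul, div_mul_cancel₀ _ hcon.ne'] at h4
  exact lt_irrefl _ h4

section Dense

variable [PartialOrder A] [StarOrderedRing A]

theorem mem_form (ω : A →ₚ[ℂ] ℂ) {ζ : K ⊗[ℂ] ω.GNS}
    (hζ : ζ ∈ Submodule.span ℂ {t : K ⊗[ℂ] ω.GNS | ∃ α a, t = α ⊗ₜ[ℂ] cl ω a}) :
    ∃ (I : Type) (_ : Fintype I) (α : I → K) (y : I → A), ζ = ∑ i, α i ⊗ₜ[ℂ] cl ω (y i) := by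
  induction hζ using Submodule.span_induction with
  | mem x hx =>
    obtain ⟨α, a, rfl⟩ := hx
    exact ⟨Unit, inferInstance, fun _ => α, fun _ => a, by simp⟩
  | zero => exact ⟨Empty, inferInstance, fun i => i.elim, fun i => i.elim, by simp⟩
  | add x y _ _ hx hy =>
    obtain ⟨I, _, α, a, rfl⟩ := hx
    obtain ⟨I', _, α', a', rfl⟩ := hy
    exact ⟨I ⊕ I', inferInstance, Sum.elim α α', Sum.elim a a', by simp⟩
  | smul t x _ hx =>
    obtain ⟨I, _, α, a, rfl⟩ := hx
    refine ⟨I, inferInstance, fun i => t • α i, a, ?_⟩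
    rw [Finset.smul_sum]
    exact Finset.sum_congr rfl fun i _ => TensorProduct.smul_tmul' t (α i) (cl ω (a i))

theorem dense_form (ω : A →ₚ[ℂ] ℂ) (ζ : K ⊗[ℂ] ω.GNS) :
    ζ ∈ closure ((Submodule.span ℂ {t : K ⊗[ℂ] ω.GNS | ∃ α a, t = α ⊗ₜ[ℂ] cl ω a} :
      Submodule ℂ (K ⊗[ℂ] ω.GNS)) : Set (K ⊗[ℂ] ω.GNS)) := by
  set W := Submodule.span ℂ {t : K ⊗[ℂ] ω.GNS | ∃ α a, t = α ⊗ₜ[ℂ] cl ω a}
  induction ζ using TensorProduct.induction_on with
  | zero => exact subset_closure (zero_mem W)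
  | tmul α x =>
    have hcont : Continuous fun x : ω.GNS => α ⊗ₜ[ℂ] x := (TensorProduct.mkL ℂ K ω.GNS α).continuous
    refine (denseRange_cl ω).induction_on x ?_ ?_
    · exact isClosed_closure.preimage hcont
    · intro a
      exact subset_closure (Submodule.subset_span ⟨α, a, rfl⟩)
  | add x y hx hy =>
    have h1 : Continuous fun p : (K ⊗[ℂ] ω.GNS) × (K ⊗[ℂ] ω.GNS) => p.1 + p.2 := continuous_add
    exact map_mem_closure₂ h1 hx hy fun a ha b hb => W.add_mem ha hb

end Dense

end Pool.Agent.Sub70.SX
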