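import Mathlib
import Pool.Agent.Sub70.SX.Sep

/-!
# The identity is a limit of factorable maps
-/

set_option autoImplicit false
set_option linter.unusedSectionVars false

open scoped ComplexOrder InnerProductSpace ComplexConjugate ComplexStarModule TensorProduct Topology
open Finset TensorProduct Module Filter

noncomputable section

namespace Pool.Agent.Sub70.SX

universe u v

variable {A : Type u} [CStarAlgebra A]
  {K : Type v} [NormedAddCommGroup K] [InnerProductSpace ℂ K] [CompleteSpace K]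

/-- Restriction of a real functional to the self-adjoint elements of the `j`-th summand. -/
def comp {r : ℕ} (f : StrongDual ℝ (Fin r → A)) (j : Fin r) : selfAdjoint A →ₗ[ℝ] ℝ where
  toFun x := f (Pi.single j (x : A))
  map_add' x y := by
    rw [AddSubgroup.coe_add, Pi.single_add, map_add]
  map_smul' c x := by
    rw [selfAdjoint.val_smul, Pi.single_smul, map_smul]
    rfl

theorem comp_sum {r : ℕ} (f : StrongDual ℝ (Fin r → A)) (v : Fin r → A)
    (hv : ∀ j, IsSelfAdjoint (v j)) : ∑ j, comp f j ⟨v j, hv j⟩ = f v := by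
  have h : v = ∑ j, Pi.single j (v j) := by
    rw [Finset.univ_sum_single]
  conv_rhs => rw [h]
  rw [map_sum]
  rfl

theorem comp_bound {r : ℕ} (f : StrongDual ℝ (Fin r → A)) (j : Fin r) (x : selfAdjoint A) :
    |comp f j x| ≤ ‖f‖ * ‖(x : A)‖ := by
  have h := f.le_opNorm (Pi.single j (x : A))
  rw [Pi.norm_single] at h
  exact h

theorem mem_closure_vals {π : A →⋆ₐ[ℂ] (K →L[ℂ] K)} (hπ : ∀ a, ‖a‖ ≤ ‖π a‖)
    {F : ℕ → Submodule ℂ A} (hmono : Monotone F)
    (hone : (1 : A) ∈ F 0)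
    (hmul : ∀ m n : ℕ, ∀ x ∈ F m, ∀ y ∈ F n, x * y ∈ F (m + n))
    (hfin : ∀ n : ℕ, FiniteDimensional ℂ (F n))
    (hgrow : Tendsto (fun n : ℕ => ((finrank ℂ (F n) : ℕ) : ℝ) ^ (1 / (n : ℝ))) atTop (𝓝 1))
    {m r : ℕ} (s : Fin r → A) (hs : ∀ j, IsSelfAdjoint (s j)) (hm : ∀ j, s j ∈ F m) :
    s ∈ closure (vals π s) := by
  classical
  by_contra hcon
  obtain ⟨f, hf1, hf2⟩ := exists_sep hcon
  let _ := CStarAlgebra.spectralOrder A
  have _ := CStarAlgebra.spectralOrderedRing A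
  choose φ ψ hφ hψ _ _ hφψ using fun j : Fin r =>
    real_jordan (comp f j) ‖f‖ (norm_nonneg _) (comp_bound f j)
  let Φ : selfAdjoint A →ₗ[ℝ] ℝ := ∑ j, (φ j + ψ j)
  have hΦapp : ∀ x, Φ x = ∑ j, (φ j x + ψ j x) := by
    intro x
    simp only [Φ, LinearMap.sum_apply, LinearMap.add_apply]
  have hΦ : ∀ x : selfAdjoint A, 0 ≤ (x : A) → 0 ≤ Φ x := by
    intro x hx
    rw [hΦapp]
    exact Finset.sum_nonneg fun j _ => add_nonneg (hφ j x hx) (hψ j x hx)
  set ω := posOf Φ hΦ with hω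
  -- domination
  have hdom : ∀ (χ : selfAdjoint A →ₗ[ℝ] ℝ) (hχ : ∀ x : selfAdjoint A, 0 ≤ (x : A) → 0 ≤ χ x),
      (∀ x : selfAdjoint A, 0 ≤ (x : A) → χ x ≤ Φ x) →
      ∀ a, (posOf χ hχ (star a * a)).re ≤ (ω (star a * a)).re := by
    intro χ hχ hle a
    let x : selfAdjoint A := ⟨star a * a, IsSelfAdjoint.star_mul_self a⟩
    have h1 : posOf χ hχ (star a * a) = (χ x : ℂ) := posOf_sa χ hχ x
    have h2 : ω (star a * a) = (Φ x : ℂ) := posOf_sa Φ hΦ x
    rw [h1, h2, Complex.ofReal_re, Complex.ofReal_re]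
    exact hle x (star_mul_self_nonneg a)
  have hφd : ∀ j, ∀ a, (posOf (φ j) (hφ j) (star a * a)).re ≤ (ω (star a * a)).re := by
    intro j
    refine hdom _ _ fun x hx => ?_
    rw [hΦapp]
    refine le_trans ?_ (Finset.single_le_sum (f := fun j => φ j x + ψ j x)
      (fun j _ => add_nonneg (hφ j x hx) (hψ j x hx)) (Finset.mem_univ j))
    have := hψ j x hx
    linarith
  have hψd : ∀ j, ∀ a, (posOf (ψ j) (hψ j) (star a * a)).re ≤ (ω (star a * a)).re := by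
    intro j
    refine hdom _ _ fun x hx => ?_
    rw [hΦapp]
    refine le_trans ?_ (Finset.single_le_sum (f := fun j => φ j x + ψ j x)
      (fun j _ => add_nonneg (hφ j x hx) (hψ j x hx)) (Finset.mem_univ j))
    have := hφ j x hx
    linarith
  let b : Fin r → (ω.GNS →L[ℂ] ω.GNS) := fun j => bop (hφd j) - bop (hψd j)
  have hbsa : ∀ j, IsSelfAdjoint (b j) := fun j => (bop_sa _).sub (bop_sa _)
  have hbcomm : ∀ j a, b j * ω.gnsStarAlgHom a = ω.gnsStarAlgHom a * b j := by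
    intro j a
    simp only [b]
    rw [sub_mul, mul_sub, bop_comm, bop_comm]
  have hbin : ∀ j x y, ⟪cl ω x, b j (cl ω y)⟫_ℂ =
      posOf (φ j) (hφ j) (star x * y) - posOf (ψ j) (hψ j) (star x * y) := by
    intro j x y
    have : b j (cl ω y) = bop (hφd j) (cl ω y) - bop (hψd j) (cl ω y) := rfl
    rw [this, inner_sub_right, inner_bop, inner_bop]
  -- value at self-adjoint elements
  have hval : ∀ j (x : A) (hx : IsSelfAdjoint x),
      posOf (φ j) (hφ j) x - posOf (ψ j) (hψ j) x = ((comp f j ⟨x, hx⟩ : ℝ) : ℂ) := by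
    intro j x hx
    have h1 : posOf (φ j) (hφ j) x = (φ j ⟨x, hx⟩ : ℂ) := posOf_sa (φ j) (hφ j) ⟨x, hx⟩
    have h2 : posOf (ψ j) (hψ j) x = (ψ j ⟨x, hx⟩ : ℂ) := posOf_sa (ψ j) (hψ j) ⟨x, hx⟩
    rw [h1, h2, hφψ, Complex.ofReal_sub]
  let P : K ⊗[ℂ] ω.GNS →L[ℂ] K ⊗[ℂ] ω.GNS := ∑ j, mapL (π (s j)) (b j)
  let P' : ω.GNS →L[ℂ] ω.GNS := ∑ j, ω.gnsStarAlgHom (s j) * b j
  -- correspondence needs an index type in `Type`
  have hcorr : Corr π ω.gnsStarAlgHom (F m) P P' :=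
    ⟨Fin r, inferInstance, s, b, hm, hbcomm, rfl, rfl⟩
  have hP'sa : IsSelfAdjoint P' := by
    refine isSelfAdjoint_sum _ fun j _ => ?_
    rw [IsSelfAdjoint, star_mul, ← map_star, (hs j).star_eq, (hbsa j).star_eq, hbcomm]
  have hneg : ∀ ζ : K ⊗[ℂ] ω.GNS, (⟪ζ, P ζ⟫_ℂ).re ≤ 0 := by
    intro ζ
    have hclosed : IsClosed {ζ : K ⊗[ℂ] ω.GNS | (⟪ζ, P ζ⟫_ℂ).re ≤ 0} := by
      refine isClosed_le (Complex.continuous_re.comp ?_) continuous_const
      exact Continuous.inner (𝕜 := ℂ) (E := K ⊗[ℂ] ω.GNS) continuous_id P.continuous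
    refine closure_minimal ?_ hclosed (dense_form ω ζ)
    intro ζ' hζ'
    obtain ⟨I, _, α, y, rfl⟩ := mem_form ω hζ'
    show (⟪∑ i, α i ⊗ₜ[ℂ] cl ω (y i), P (∑ i, α i ⊗ₜ[ℂ] cl ω (y i))⟫_ℂ).re ≤ 0
    have hTsa : ∀ j, IsSelfAdjoint (mapOf π (fun _ : I => (0 : Fin 1)) α y (s j)) :=
      fun j => mapOf_sa _ _ _ (hs j)
    have hmem : (fun j => mapOf π (fun _ : I => (0 : Fin 1)) α y (s j)) ∈ vals π s :=
      ⟨I, inferInstance, Fin 1, inferInstance, inferInstance, fun _ => 0, α, y, fun j => rfl⟩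
    have h1 := hf1 _ hmem
    rw [← comp_sum f _ hTsa] at h1
    have h2 : ⟪∑ i, α i ⊗ₜ[ℂ] cl ω (y i), P (∑ i, α i ⊗ₜ[ℂ] cl ω (y i))⟫_ℂ =
        ((∑ j, comp f j ⟨mapOf π (fun _ : I => (0 : Fin 1)) α y (s j), hTsa j⟩ : ℝ) : ℂ) := by
      rw [Complex.ofReal_sum]
      simp only [← hval]
      simp only [mapOf, if_true, map_sum, map_smul, smul_eq_mul, P, _root_.sum_apply, inner_sum,
        sum_inner, mapL_tmul, inner_tmul, hbin]
      rw [Finset.sum_comm]
      refine Finset.sum_congr rfl fun j _ => ?_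
      rw [← Finset.sum_sub_distrib]
      refine Finset.sum_congr rfl fun i _ => ?_
      rw [← Finset.sum_sub_distrib]
      exact Finset.sum_congr rfl fun l _ => mul_sub _ _ _
    rw [h2, Complex.ofReal_re]
    exact h1
  have hfinal := hcorr.re_inner_nonpos hπ hmono hone hmul hfin hgrow hP'sa hneg (cl ω 1)
  have h3 : ⟪cl ω 1, P' (cl ω 1)⟫_ℂ = ((f s : ℝ) : ℂ) := by
    rw [← comp_sum f s hs, Complex.ofReal_sum]
    simp only [← hval]
    simp only [P', _root_.sum_apply, inner_sum, mul_apply_eq_comp]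
    refine Finset.sum_congr rfl fun j _ => ?_
    have h4 : ⟪cl ω 1, ω.gnsStarAlgHom (s j) (b j (cl ω 1))⟫_ℂ =
        ⟪ω.gnsStarAlgHom (star (s j)) (cl ω 1), b j (cl ω 1)⟫_ℂ := by
      rw [map_star, ContinuousLinearMap.star_eq_adjoint, ContinuousLinearMap.adjoint_inner_left]
    rw [h4, gns_cl, mul_one, hbin, star_star, mul_one]
  rw [h3, Complex.ofReal_re] at hfinal
  linarith

end Pool.Agent.Sub70.SX
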