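import Mathlib
import Pool.Agent.Sub70.SX.Main

/-!
# Complete positivity
-/

set_option autoImplicit false
set_option linter.unusedSectionVars false

open scoped ComplexOrder InnerProductSpace ComplexConjugate TensorProduct Topology
open Finset TensorProduct Module Filter

noncomputable section

namespace Pool.Agent.Sub70.SX

universe u v

section Blocks

variable {E : Type v} [NormedAddCommGroup E] [InnerProductSpace ℂ E] [CompleteSpace E]

/-- The coordinate projections. -/
def pr {n : ℕ} (i : Fin n) : PiLp 2 (fun _ : Fin n => E) →L[ℂ] E :=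
  PiLp.proj 2 (fun _ : Fin n => E) i

theorem pr_apply {n : ℕ} (i : Fin n) (x : PiLp 2 (fun _ : Fin n => E)) : pr i x = x i := rfl

theorem adj_pr {n : ℕ} (i : Fin n) (x : E) :
    ContinuousLinearMap.adjoint (pr (E := E) i) x = PiLp.single 2 i x := by
  refine ext_inner_right ℂ fun v => ?_
  rw [ContinuousLinearMap.adjoint_inner_left, pr_apply, PiLp.inner_apply,
    Finset.sum_eq_single i]
  · simp
  · intro j _ hj
    rw [PiLp.single_eq_of_ne 2 hj, inner_zero_left]
  · simp

theorem pr_adj_pr {n : ℕ} (i j : Fin n) (x : E) :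
    pr i (ContinuousLinearMap.adjoint (pr (E := E) j) x) = if i = j then x else 0 := by
  rw [adj_pr, pr_apply]
  split_ifs with h
  · subst h; exact PiLp.single_eq_same (β := fun _ : Fin n => E) 2 i x
  · exact PiLp.single_eq_of_ne (β := fun _ : Fin n => E) 2 h x

theorem sum_adj_pr {n : ℕ} (x : PiLp 2 (fun _ : Fin n => E)) :
    ∑ i, ContinuousLinearMap.adjoint (pr (E := E) i) (pr i x) = x := by
  ext i
  have h : (∑ l, ContinuousLinearMap.adjoint (pr (E := E) l) (pr l x)) i =
      pr i (∑ l, ContinuousLinearMap.adjoint (pr (E := E) l) (pr l x)) := rfl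
  rw [h, map_sum]
  simp only [pr_adj_pr, Finset.sum_ite_eq, Finset.mem_univ, if_true]
  rfl

/-- A matrix of operators with non-negative quadratic form is of the form `z* z`. -/
theorem exists_blocks {n : ℕ} (M : Matrix (Fin n) (Fin n) (E →L[ℂ] E))
    (hM : ∀ v : Fin n → E, 0 ≤ ∑ i, ∑ j, ⟪v i, M i j (v j)⟫_ℂ) :
    ∃ z : Matrix (Fin n) (Fin n) (E →L[ℂ] E), M = z.conjTranspose * z := by
  let Q : PiLp 2 (fun _ : Fin n => E) →L[ℂ] PiLp 2 (fun _ : Fin n => E) :=
    ∑ i, ∑ j, ContinuousLinearMap.adjoint (pr (E := E) i) ∘L M i j ∘L pr j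
  have hQ : ∀ v w : PiLp 2 (fun _ : Fin n => E), ⟪v, Q w⟫_ℂ = ∑ i, ∑ j, ⟪v i, M i j (w j)⟫_ℂ := by
    intro v w
    simp only [Q, _root_.sum_apply, inner_sum, ContinuousLinearMap.comp_apply,
      ContinuousLinearMap.adjoint_inner_right, pr_apply]
  have hpos : 0 ≤ Q := by
    rw [ContinuousLinearMap.nonneg_iff_isPositive, ContinuousLinearMap.isPositive_iff_complex]
    intro v
    have h1 := hM v
    rw [← hQ v v] at h1
    have h2 : ⟪Q v, v⟫_ℂ = ⟪v, Q v⟫_ℂ := by
      rw [← inner_conj_symm]
      exact Complex.conj_eq_iff_im.2 ((Complex.nonneg_iff.1 h1).2.symm)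
    rw [h2]
    refine ⟨?_, (Complex.nonneg_iff.1 h1).1⟩
    apply Complex.ext
    · simp
    · simpa using (Complex.nonneg_iff.1 h1).2
  obtain ⟨S, hS⟩ := CStarAlgebra.nonneg_iff_eq_star_mul_self.1 hpos
  refine ⟨Matrix.of fun l i => pr l ∘L S ∘L ContinuousLinearMap.adjoint (pr (E := E) i), ?_⟩
  ext i j x
  refine ext_inner_left ℂ fun y => ?_
  have h1 : ⟪y, (M i j) x⟫_ℂ = ⟪ContinuousLinearMap.adjoint (pr (E := E) i) y,
      Q (ContinuousLinearMap.adjoint (pr (E := E) j) x)⟫_ℂ := by
    rw [hQ]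
    have e : ∀ (l m : Fin n) (y : E), (ContinuousLinearMap.adjoint (pr (E := E) m) y) l =
        if l = m then y else 0 := fun l m y => pr_adj_pr l m y
    rw [Finset.sum_eq_single i, Finset.sum_eq_single j]
    · rw [e, e, if_pos rfl, if_pos rfl]
    · intro l _ hl
      rw [e l j, if_neg hl, map_zero, inner_zero_right]
    · simp
    · intro l _ hl
      refine Finset.sum_eq_zero fun m _ => ?_
      rw [e l i, if_neg hl, inner_zero_left]
    · simp
  rw [h1, hS]
  simp only [Matrix.mul_apply, Matrix.conjTranspose_apply, Matrix.of_apply, _root_.sum_apply,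
    inner_sum, ContinuousLinearMap.star_eq_adjoint]
  have h2 : ∀ l, ⟪y, (ContinuousLinearMap.adjoint (pr l ∘L S ∘L
      ContinuousLinearMap.adjoint (pr (E := E) i)) * (pr l ∘L S ∘L
      ContinuousLinearMap.adjoint (pr (E := E) j))) x⟫_ℂ =
      ⟪S (ContinuousLinearMap.adjoint (pr (E := E) i) y),
        ContinuousLinearMap.adjoint (pr (E := E) l)
          (pr l (S (ContinuousLinearMap.adjoint (pr (E := E) j) x)))⟫_ℂ := by
    intro l
    rw [ContinuousLinearMap.adjoint_inner_right, mul_apply_eq_comp,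
      ContinuousLinearMap.adjoint_inner_right]
    rfl
  simp only [h2]
  rw [← inner_sum, sum_adj_pr, mul_apply_eq_comp, ContinuousLinearMap.adjoint_inner_right]

end Blocks

theorem nonneg_star {B : Type u} [NonUnitalCStarAlgebra B] [PartialOrder B] [StarOrderedRing B]
    {x : B} (h : 0 ≤ x) : ∃ z, x = star z * z := CStarAlgebra.nonneg_iff_eq_star_mul_self.1 h

/-- Gram matrices over a C*-algebra are of the form `z* z`. -/
theorem exists_starMul {A : Type u} [CStarAlgebra A] {n : ℕ} {κ : Type} [Fintype κ]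
    (g : κ → Fin n → A) : ∃ z : Matrix (Fin n) (Fin n) A,
      (Matrix.of fun i j => ∑ r, star (g r i) * g r j) = z.conjTranspose * z := by
  classical
  rcases Nat.eq_zero_or_pos n with rfl | hn
  · exact ⟨0, by ext i; exact i.elim0⟩
  let _ := CStarAlgebra.spectralOrder A
  have _ := CStarAlgebra.spectralOrderedRing A
  let i0 : Fin n := ⟨0, hn⟩
  let G : κ → CStarMatrix (Fin n) (Fin n) A := fun r =>
    CStarMatrix.ofMatrix (Matrix.of fun l i => if l = i0 then g r i else 0)
  have h1 : 0 ≤ ∑ r, star (G r) * G r := Finset.sum_nonneg fun r _ => star_mul_self_nonneg (G r)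
  obtain ⟨Z, hZ⟩ := nonneg_star h1
  refine ⟨CStarMatrix.ofMatrix.symm Z, ?_⟩
  have h2 : ∀ i j, (∑ r, star (G r) * G r) i j = ∑ r, star (g r i) * g r j := by
    intro i j
    have h3 : ∀ s : Finset κ, (∑ r ∈ s, star (G r) * G r) i j = ∑ r ∈ s, (star (G r) * G r) i j := by
      intro s
      induction s using Finset.induction_on with
      | empty => simp
      | insert a s ha ih => rw [Finset.sum_insert ha, Finset.sum_insert ha, CStarMatrix.add_apply, ih]
    rw [h3]
    refine Finset.sum_congr rfl fun r _ => ?_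
    rw [CStarMatrix.mul_apply, Finset.sum_eq_single i0]
    · simp [G, CStarMatrix.star_apply]
    · intro l _ hl
      simp [G, hl]
    · simp
  ext i j
  rw [Matrix.of_apply, ← h2, hZ]
  rfl

end Pool.Agent.Sub70.SX
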