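import Mathlib
import Pool.Agent.Sub70.SX.Cp

/-!
# Normalisation of a factorable map
-/

set_option autoImplicit false
set_option linter.unusedSectionVars false

open scoped ComplexOrder InnerProductSpace ComplexConjugate TensorProduct Topology
open Finset TensorProduct Module Filter

noncomputable section

namespace Pool.Agent.Sub70.SX

universe u v w

/-- Complete positivity of maps between C*-algebras, in the form used in the statement. -/
def CPos {A : Type u} {B : Type v} [Ring A] [StarRing A] [Ring B] [StarRing B] (φ : A → B) : Prop :=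
  ∀ (n : ℕ) (y : Matrix (Fin n) (Fin n) A), ∃ z : Matrix (Fin n) (Fin n) B,
    (y.conjTranspose * y).map φ = z.conjTranspose * z

variable {A : Type u} [CStarAlgebra A]
  {K : Type v} [NormedAddCommGroup K] [InnerProductSpace ℂ K] [CompleteSpace K]
  {K' : Type w} [NormedAddCommGroup K'] [InnerProductSpace ℂ K'] [CompleteSpace K']
  {k : ℕ}

/-- basis vector -/
abbrev ee (i : Fin k) : EuclideanSpace ℂ (Fin k) := EuclideanSpace.single i (1 : ℂ)

/-- The map `x ↦ ∑ ⟪e l, x (e i)⟫ y l* y i`. -/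
def Psi (y : Fin k → A) :
    (EuclideanSpace ℂ (Fin k) →L[ℂ] EuclideanSpace ℂ (Fin k)) →ₗ[ℂ] A where
  toFun x := ∑ i, ∑ l, ⟪ee l, x (ee i)⟫_ℂ • (star (y l) * y i)
  map_add' x x' := by
    simp only [_root_.add_apply, inner_add_right, add_smul, Finset.sum_add_distrib]
  map_smul' t x := by
    simp only [_root_.smul_apply, inner_smul_right, mul_smul, Finset.smul_sum, RingHom.id_apply]

theorem Psi_apply (y : Fin k → A) (x : EuclideanSpace ℂ (Fin k) →L[ℂ] EuclideanSpace ℂ (Fin k)) :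
    Psi y x = ∑ i, ∑ l, ⟪ee l, x (ee i)⟫_ℂ • (star (y l) * y i) := rfl

/-- The operator with `V (e i) = α i`. -/
def Vop (α : Fin k → K') : EuclideanSpace ℂ (Fin k) →L[ℂ] K' :=
  ∑ i, (EuclideanSpace.proj i : EuclideanSpace ℂ (Fin k) →L[ℂ] ℂ).smulRight (α i)

theorem Vop_ee (α : Fin k → K') (i : Fin k) : Vop α (ee i) = α i := by
  simp [Vop, _root_.sum_apply, ContinuousLinearMap.smulRight_apply, PiLp.single_apply]

theorem cpos_phi (π' : A →⋆ₐ[ℂ] (K' →L[ℂ] K')) (W : EuclideanSpace ℂ (Fin k) →L[ℂ] K') :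
    CPos (fun c : A => (ContinuousLinearMap.adjoint W ∘L π' c ∘L W)) := by
  intro n y
  refine exists_blocks _ fun v => ?_
  have h : ∑ i, ∑ j, ⟪v i, ((y.conjTranspose * y).map
      (fun c : A => (ContinuousLinearMap.adjoint W ∘L π' c ∘L W))) i j (v j)⟫_ℂ =
      ∑ r, ⟪∑ i, π' (y r i) (W (v i)), ∑ j, π' (y r j) (W (v j))⟫_ℂ := by
    simp only [Matrix.map_apply, Matrix.mul_apply, Matrix.conjTranspose_apply, map_sum,
      ContinuousLinearMap.comp_apply, _root_.sum_apply, ContinuousLinearMap.adjoint_inner_right,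
      inner_sum, sum_inner, map_mul, map_star, mul_apply_eq_comp,
      ContinuousLinearMap.star_eq_adjoint]
    calc _ = ∑ i, ∑ r, ∑ j, ⟪π' (y r i) (W (v i)), π' (y r j) (W (v j))⟫_ℂ :=
          Finset.sum_congr rfl fun i _ => Finset.sum_comm
      _ = ∑ r, ∑ i, ∑ j, ⟪π' (y r i) (W (v i)), π' (y r j) (W (v j))⟫_ℂ := Finset.sum_comm
      _ = _ := Finset.sum_congr rfl fun r _ => Finset.sum_comm
  rw [h]
  refine Finset.sum_nonneg fun r _ => ?_
  rw [inner_self_eq_norm_sq_to_K, RCLike.ofReal_eq_complex_ofReal, ← Complex.ofReal_pow]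
  exact Complex.zero_le_real.2 (sq_nonneg _)

theorem norm_phi_le (π' : A →⋆ₐ[ℂ] (K' →L[ℂ] K')) (W : EuclideanSpace ℂ (Fin k) →L[ℂ] K')
    (hW : ‖W‖ ≤ 1) (c : A) : ‖(ContinuousLinearMap.adjoint W ∘L π' c ∘L W)‖ ≤ ‖c‖ := by
  have h1 : ‖(ContinuousLinearMap.adjoint W ∘L π' c ∘L W)‖ ≤
      ‖ContinuousLinearMap.adjoint W‖ * ‖π' c ∘L W‖ := ContinuousLinearMap.opNorm_comp_le _ _
  have h2 : ‖π' c ∘L W‖ ≤ ‖π' c‖ * ‖W‖ := ContinuousLinearMap.opNorm_comp_le _ _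
  have h3 : ‖ContinuousLinearMap.adjoint W‖ ≤ 1 := by
    rw [LinearIsometryEquiv.norm_map]; exact hW
  have h4 : ‖π' c‖ ≤ ‖c‖ := NonUnitalStarAlgHom.norm_apply_le π' c
  have h5 := norm_nonneg c
  have h6 := norm_nonneg (π' c)
  have h7 := norm_nonneg W
  have h8 := norm_nonneg (π' c ∘L W)
  have h9 := norm_nonneg (ContinuousLinearMap.adjoint W)
  calc _ ≤ ‖ContinuousLinearMap.adjoint W‖ * ‖π' c ∘L W‖ := h1
    _ ≤ 1 * (‖π' c‖ * ‖W‖) := mul_le_mul h3 h2 h8 zero_le_one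
    _ ≤ 1 * (‖c‖ * 1) := by
        refine mul_le_mul_of_nonneg_left ?_ zero_le_one
        exact mul_le_mul h4 hW h7 h5
    _ = ‖c‖ := by ring

theorem cpos_psi (y : Fin k → A) {q : EuclideanSpace ℂ (Fin k) →L[ℂ] EuclideanSpace ℂ (Fin k)}
    (hq : IsSelfAdjoint q) {t : ℝ} (ht : 0 ≤ t) :
    CPos (fun x : EuclideanSpace ℂ (Fin k) →L[ℂ] EuclideanSpace ℂ (Fin k) =>
      (t : ℂ) • Psi y (q * x * q)) := by
  intro n w
  obtain ⟨z, hz⟩ := exists_starMul (A := A) (n := n) (κ := Fin n × Fin k) (fun p j =>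
    ((√t : ℝ) : ℂ) • ∑ a, (w p.1 j (q (ee a))) p.2 • y a)
  refine ⟨z, ?_⟩
  rw [← hz]
  ext i j
  rw [Matrix.map_apply, Matrix.of_apply, Matrix.mul_apply, Fintype.sum_prod_type]
  have hqa : ContinuousLinearMap.adjoint q = q := by
    rw [← ContinuousLinearMap.star_eq_adjoint]; exact hq
  have h1 : ∀ (r : Fin n) (a b : Fin k), ⟪ee b, (q * (star (w r i) * w r j) * q) (ee a)⟫_ℂ =
      ∑ m, conj ((w r i (q (ee b))) m) * (w r j (q (ee a))) m := by
    intro r a b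
    have e1 : ⟪ee b, (q * (star (w r i) * w r j) * q) (ee a)⟫_ℂ =
        ⟪w r i (q (ee b)), w r j (q (ee a))⟫_ℂ := by
      simp only [mul_apply_eq_comp, ContinuousLinearMap.star_eq_adjoint]
      conv_lhs => rw [← hqa]
      rw [ContinuousLinearMap.adjoint_inner_right, ContinuousLinearMap.adjoint_inner_right, hqa]
    rw [e1, PiLp.inner_apply]
    refine Finset.sum_congr rfl fun m _ => ?_
    simp [mul_comm]
  have h2 : ((t : ℝ) : ℂ) = ((√t : ℝ) : ℂ) * ((√t : ℝ) : ℂ) := by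
    rw [← Complex.ofReal_mul, Real.mul_self_sqrt ht]
  simp only [Matrix.conjTranspose_apply]
  rw [Finset.mul_sum, Finset.sum_mul, map_sum, Finset.smul_sum]
  refine Finset.sum_congr rfl fun r _ => ?_
  rw [Psi_apply]
  simp only [h1]
  simp only [star_smul, star_sum, RCLike.star_def, Complex.conj_ofReal, smul_mul_smul_comm,
    Finset.sum_mul_sum, ← h2]
  rw [← Finset.smul_sum]
  congr 1
  simp only [Finset.sum_smul]
  calc _ = ∑ a, ∑ m, ∑ b, (conj ((w r i (q (ee b))) m) * (w r j (q (ee a))) m) •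
        (star (y b) * y a) := Finset.sum_congr rfl fun a _ => Finset.sum_comm
    _ = ∑ m, ∑ a, ∑ b, (conj ((w r i (q (ee b))) m) * (w r j (q (ee a))) m) •
        (star (y b) * y a) := Finset.sum_comm
    _ = _ := Finset.sum_congr rfl fun m _ => Finset.sum_comm

theorem norm_psi_le {π : A →⋆ₐ[ℂ] (K →L[ℂ] K)} (hπ : ∀ a, ‖a‖ ≤ ‖π a‖) (y : Fin k → A)
    {q : EuclideanSpace ℂ (Fin k) →L[ℂ] EuclideanSpace ℂ (Fin k)} (hq : IsSelfAdjoint q) {C : ℝ}
    (hC : 0 ≤ C) (hq2 : ‖Psi y (q * q)‖ ≤ C)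
    (x : EuclideanSpace ℂ (Fin k) →L[ℂ] EuclideanSpace ℂ (Fin k)) :
    ‖Psi y (q * x * q)‖ ≤ C * ‖x‖ := by
  have hqa : ContinuousLinearMap.adjoint q = q := by
    rw [← ContinuousLinearMap.star_eq_adjoint]; exact hq
  let Z : K → EuclideanSpace ℂ (Fin k) ⊗[ℂ] K := fun u => ∑ a, q (ee a) ⊗ₜ[ℂ] π (y a) u
  have key : ∀ (x : EuclideanSpace ℂ (Fin k) →L[ℂ] EuclideanSpace ℂ (Fin k)) (u v : K),
      ⟪u, π (Psi y (q * x * q)) v⟫_ℂ = ⟪Z u, mapL x (1 : K →L[ℂ] K) (Z v)⟫_ℂ := by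
    intro x u v
    simp only [Z, Psi_apply, map_sum, map_smul, _root_.sum_apply, _root_.smul_apply, inner_sum,
      inner_smul_right, sum_inner, mapL_tmul, inner_tmul, map_mul, map_star, mul_apply_eq_comp,
      ContinuousLinearMap.star_eq_adjoint, ContinuousLinearMap.adjoint_inner_right, one_apply_eq_self]
    refine Finset.sum_congr rfl fun a _ => Finset.sum_congr rfl fun b _ => ?_
    congr 1
    conv_lhs => rw [← hqa]
    rw [ContinuousLinearMap.adjoint_inner_right, hqa]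
  have hZ : ∀ u, ‖Z u‖ ^ 2 ≤ C * ‖u‖ ^ 2 := by
    intro u
    have h1 := key 1 u u
    rw [mul_one] at h1
    have h2 : mapL (1 : EuclideanSpace ℂ (Fin k) →L[ℂ] EuclideanSpace ℂ (Fin k)) (1 : K →L[ℂ] K)
        (Z u) = Z u := by
      have : mapL (1 : EuclideanSpace ℂ (Fin k) →L[ℂ] EuclideanSpace ℂ (Fin k)) (1 : K →L[ℂ] K) =
        ContinuousLinearMap.id ℂ _ := mapL_id_id
      rw [this]; rfl
    rw [h2] at h1
    have h3 : ‖⟪Z u, Z u⟫_ℂ‖ = ‖Z u‖ ^ 2 := by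
      have := inner_self_eq_norm_sq_to_K (𝕜 := ℂ) (E := EuclideanSpace ℂ (Fin k) ⊗[ℂ] K) (Z u)
      rw [this]
      simp
    rw [← h3, ← h1]
    calc ‖⟪u, π (Psi y (q * q)) u⟫_ℂ‖ ≤ ‖u‖ * ‖π (Psi y (q * q)) u‖ := norm_inner_le_norm _ _
      _ ≤ ‖u‖ * (C * ‖u‖) := by
          refine mul_le_mul_of_nonneg_left ?_ (norm_nonneg _)
          refine ((π (Psi y (q * q))).le_opNorm u).trans ?_
          refine mul_le_mul_of_nonneg_right ?_ (norm_nonneg _)
          exact (NonUnitalStarAlgHom.norm_apply_le π _).trans hq2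
      _ = C * ‖u‖ ^ 2 := by ring
  have hZ' : ∀ u, ‖Z u‖ ≤ √C * ‖u‖ := by
    intro u
    refine le_of_sq_le_sq ?_ (by positivity)
    rw [mul_pow, Real.sq_sqrt hC]
    exact hZ u
  refine (hπ _).trans ?_
  refine ContinuousLinearMap.opNorm_le_bound _ (by positivity) fun v => ?_
  refine norm_le_of_inner (by positivity) fun u => ?_
  rw [key]
  have h5 : ‖⟪Z u, mapL x (1 : K →L[ℂ] K) (Z v)⟫_ℂ‖ ≤ ‖Z u‖ * ‖mapL x (1 : K →L[ℂ] K) (Z v)‖ :=
    norm_inner_le_norm (𝕜 := ℂ) (E := EuclideanSpace ℂ (Fin k) ⊗[ℂ] K) _ _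
  have h6 : ‖mapL x (1 : K →L[ℂ] K) (Z v)‖ ≤ ‖mapL x (1 : K →L[ℂ] K)‖ * ‖Z v‖ :=
    ContinuousLinearMap.le_opNorm _ _
  have h7 : ‖mapL x (1 : K →L[ℂ] K)‖ ≤ ‖x‖ := by
    refine (norm_mapL_le _ _).trans ?_
    calc ‖x‖ * ‖(1 : K →L[ℂ] K)‖ ≤ ‖x‖ * 1 :=
          mul_le_mul_of_nonneg_left ContinuousLinearMap.norm_id_le (norm_nonneg _)
      _ = ‖x‖ := mul_one _
  have h8 := hZ' u
  have h9 := hZ' v
  have h10 : 0 ≤ ‖Z u‖ := norm_nonneg (E := EuclideanSpace ℂ (Fin k) ⊗[ℂ] K) _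
  have h11 : 0 ≤ ‖Z v‖ := norm_nonneg (E := EuclideanSpace ℂ (Fin k) ⊗[ℂ] K) _
  have h12 : 0 ≤ ‖x‖ := norm_nonneg x
  have h13 : 0 ≤ ‖u‖ := norm_nonneg u
  have h14 : 0 ≤ ‖v‖ := norm_nonneg v
  have h15 : √C * √C = C := Real.mul_self_sqrt hC
  have h16 : 0 ≤ √C := Real.sqrt_nonneg C
  generalize ‖⟪Z u, mapL x (1 : K →L[ℂ] K) (Z v)⟫_ℂ‖ = e1 at *
  generalize ‖mapL x (1 : K →L[ℂ] K) (Z v)‖ = e2 at *
  generalize ‖mapL x (1 : K →L[ℂ] K)‖ = e3 at *
  generalize ‖Z u‖ = e4 at *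
  generalize ‖Z v‖ = e5 at *
  generalize ‖x‖ = x' at *
  generalize ‖u‖ = u' at *
  generalize ‖v‖ = v' at *
  generalize √C = c at *
  calc e1 ≤ e4 * e2 := h5
    _ ≤ e4 * (e3 * e5) := mul_le_mul_of_nonneg_left h6 h10
    _ ≤ e4 * (x' * e5) :=
        mul_le_mul_of_nonneg_left (mul_le_mul_of_nonneg_right h7 h11) h10
    _ ≤ e4 * (x' * (c * v')) :=
        mul_le_mul_of_nonneg_left (mul_le_mul_of_nonneg_left h9 h12) h10
    _ ≤ (c * u') * (x' * (c * v')) :=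
        mul_le_mul_of_nonneg_right h8 (by positivity)
    _ = (c * c) * x' * v' * u' := by ring
    _ = C * x' * v' * u' := by rw [h15]

/-- Normalisation. -/
theorem exists_factor {π : A →⋆ₐ[ℂ] (K →L[ℂ] K)} (hπ : ∀ a, ‖a‖ ≤ ‖π a‖)
    (π' : A →⋆ₐ[ℂ] (K' →L[ℂ] K')) (α : Fin k → K') (y : Fin k → A) {η : ℝ} (hη : 0 < η)
    (hT : ‖∑ i, ∑ l, ⟪α l, α i⟫_ℂ • (star (y l) * y i)‖ ≤ 1 + η) :
    ∃ (φ : A →ₗ[ℂ] (EuclideanSpace ℂ (Fin k) →L[ℂ] EuclideanSpace ℂ (Fin k)))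
      (ψ : (EuclideanSpace ℂ (Fin k) →L[ℂ] EuclideanSpace ℂ (Fin k)) →ₗ[ℂ] A),
      CPos φ ∧ CPos ψ ∧ (∀ a, ‖φ a‖ ≤ ‖a‖) ∧ (∀ b, ‖ψ b‖ ≤ ‖b‖) ∧
      ∀ c, ψ (φ c) = (((1 + 2 * η)⁻¹ : ℝ) : ℂ) •
        ∑ i, ∑ l, ⟪α l, π' c (α i)⟫_ℂ • (star (y l) * y i) := by
  set V := Vop α with hV
  obtain ⟨δ, hδ0, hδ⟩ : ∃ δ : ℝ, 0 < δ ∧ δ * ‖Psi y 1‖ ≤ η := by
    refine ⟨η / (‖Psi y 1‖ + 1), by positivity, ?_⟩
    rw [div_mul_eq_mul_div, div_le_iff₀ (by positivity)]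
    nlinarith [norm_nonneg (Psi y 1)]
  let G : EuclideanSpace ℂ (Fin k) →L[ℂ] EuclideanSpace ℂ (Fin k) :=
    ContinuousLinearMap.adjoint V ∘L V
  have hG : 0 ≤ G := by
    rw [ContinuousLinearMap.nonneg_iff_isPositive]
    exact ContinuousLinearMap.isPositive_adjoint_comp_self V
  let p : EuclideanSpace ℂ (Fin k) →L[ℂ] EuclideanSpace ℂ (Fin k) := G + (δ : ℂ) • 1
  have hδ1 : (0 : EuclideanSpace ℂ (Fin k) →L[ℂ] EuclideanSpace ℂ (Fin k)) ≤ (δ : ℂ) • 1 := by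
    rw [ContinuousLinearMap.nonneg_iff_isPositive]
    exact ContinuousLinearMap.isPositive_one.smul_of_nonneg (by exact_mod_cast hδ0.le)
  have hp : 0 ≤ p := add_nonneg hG hδ1
  have hpu : IsUnit p := by
    have hne : (δ : ℂ) ≠ 0 := by exact_mod_cast hδ0.ne'
    have h1 : IsUnit ((δ : ℂ) • (1 : EuclideanSpace ℂ (Fin k) →L[ℂ] EuclideanSpace ℂ (Fin k))) :=
      isUnit_one.smul (Units.mk0 (δ : ℂ) hne)
    refine CStarAlgebra.isUnit_of_le ((δ : ℂ) • 1) (le_add_of_nonneg_left hG) ?_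
    exact ⟨hδ1, h1⟩
  let q := CFC.sqrt p
  have hqq : q * q = p := CFC.sqrt_mul_sqrt_self p hp
  have hq0 : 0 ≤ q := CFC.sqrt_nonneg p
  have hqsa : IsSelfAdjoint q := .of_nonneg hq0
  obtain ⟨pu, hpu'⟩ := hpu
  -- the inverse of `q`
  let q' := q * (pu⁻¹ : _)
  have hqq' : q * q' = 1 := by
    simp only [q']
    rw [← mul_assoc, hqq, ← hpu', Units.mul_inv]
  have hq'q : q' * q = 1 := by
    have h1 : (↑pu⁻¹ : EuclideanSpace ℂ (Fin k) →L[ℂ] EuclideanSpace ℂ (Fin k)) * q * q = 1 := by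
      rw [mul_assoc, hqq, ← hpu', Units.inv_mul]
    have h2 : q' = (↑pu⁻¹ : EuclideanSpace ℂ (Fin k) →L[ℂ] EuclideanSpace ℂ (Fin k)) * q := by
      calc q' = ((↑pu⁻¹ : EuclideanSpace ℂ (Fin k) →L[ℂ] EuclideanSpace ℂ (Fin k)) * q * q) * q' := by
            rw [h1, one_mul]
        _ = (↑pu⁻¹ : EuclideanSpace ℂ (Fin k) →L[ℂ] EuclideanSpace ℂ (Fin k)) * q * (q * q') := by
            rw [mul_assoc]
        _ = _ := by rw [hqq', mul_one]
    rw [h2, h1]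
  have hq'sa : IsSelfAdjoint q' := by
    have h1 : star q' * q = 1 := by
      have := congrArg star hqq'
      rwa [star_mul, star_one, hqsa.star_eq] at this
    calc star q' = star q' * (q * q') := by rw [hqq', mul_one]
      _ = q' := by rw [← mul_assoc, h1, one_mul]
  let W : EuclideanSpace ℂ (Fin k) →L[ℂ] K' := V ∘L q'
  have hqa : ContinuousLinearMap.adjoint q' = q' := by
    rw [← ContinuousLinearMap.star_eq_adjoint]; exact hq'sa
  have hW : ‖W‖ ≤ 1 := by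
    refine ContinuousLinearMap.opNorm_le_bound _ zero_le_one fun x => ?_
    rw [one_mul]
    refine le_of_sq_le_sq ?_ (norm_nonneg _)
    have h1 : ⟪W x, W x⟫_ℂ = ⟪x, x⟫_ℂ - (δ : ℂ) * ⟪q' x, q' x⟫_ℂ := by
      have e1 : ⟪W x, W x⟫_ℂ = ⟪q' x, G (q' x)⟫_ℂ := by
        simp only [W, G, ContinuousLinearMap.comp_apply, ContinuousLinearMap.adjoint_inner_right]
      have e2 : G = q * q - (δ : ℂ) • 1 := by
        rw [hqq]; simp [p]
      have e3 : G (q' x) = q x - (δ : ℂ) • q' x := by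
        rw [e2]
        have : (q * q - (δ : ℂ) • (1 : EuclideanSpace ℂ (Fin k) →L[ℂ] EuclideanSpace ℂ (Fin k)))
          (q' x) = q ((q * q') x) - (δ : ℂ) • q' x := rfl
        rw [this, hqq']
        rfl
      rw [e1, e3, inner_sub_right, inner_smul_right]
      congr 1
      have e4 : ⟪q' x, q x⟫_ℂ = ⟪x, (q' * q) x⟫_ℂ := by
        conv_lhs => rw [← hqa]
        rw [ContinuousLinearMap.adjoint_inner_left]
        rfl
      rw [e4, hq'q]
      rfl
    have h2 := congrArg Complex.re h1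
    rw [Complex.sub_re, Complex.re_ofReal_mul] at h2
    have h3 : ∀ {X : Type w} [NormedAddCommGroup X] [InnerProductSpace ℂ X] (x : X),
        (⟪x, x⟫_ℂ).re = ‖x‖ ^ 2 := fun x => inner_self_eq_norm_sq (𝕜 := ℂ) x
    have h4 : ∀ (x : EuclideanSpace ℂ (Fin k)), (⟪x, x⟫_ℂ).re = ‖x‖ ^ 2 :=
      fun x => inner_self_eq_norm_sq (𝕜 := ℂ) x
    rw [h3, h4, h4] at h2
    rw [h2]
    have : 0 ≤ δ * ‖q' x‖ ^ 2 := by positivity
    linarith
  -- the maps
  let φ : A →ₗ[ℂ] (EuclideanSpace ℂ (Fin k) →L[ℂ] EuclideanSpace ℂ (Fin k)) :=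
    { toFun := fun c => ContinuousLinearMap.adjoint W ∘L π' c ∘L W
      map_add' := fun c d => by
        refine ContinuousLinearMap.ext fun x => ?_
        simp only [map_add, ContinuousLinearMap.comp_apply, _root_.add_apply]
      map_smul' := fun t c => by
        refine ContinuousLinearMap.ext fun x => ?_
        simp only [map_smul, ContinuousLinearMap.comp_apply, _root_.smul_apply, RingHom.id_apply] }
  let ψ : (EuclideanSpace ℂ (Fin k) →L[ℂ] EuclideanSpace ℂ (Fin k)) →ₗ[ℂ] A :=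
    { toFun := fun x => (((1 + 2 * η)⁻¹ : ℝ) : ℂ) • Psi y (q * x * q)
      map_add' := fun c d => by
        rw [mul_add, add_mul, map_add, smul_add]
      map_smul' := fun t c => by
        rw [mul_smul_comm, smul_mul_assoc, map_smul, smul_comm]
        rfl }
  have hC : ‖Psi y (q * q)‖ ≤ 1 + 2 * η := by
    rw [hqq]
    simp only [p]
    rw [map_add, map_smul]
    have h1 : Psi y G = ∑ i, ∑ l, ⟪α l, α i⟫_ℂ • (star (y l) * y i) := by
      rw [Psi_apply]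
      simp only [G, ContinuousLinearMap.comp_apply, ContinuousLinearMap.adjoint_inner_right, hV,
        Vop_ee]
    rw [h1]
    refine (norm_add_le _ _).trans ?_
    rw [norm_smul, Complex.norm_real, Real.norm_of_nonneg hδ0.le]
    linarith
  refine ⟨φ, ψ, cpos_phi π' W, cpos_psi y hqsa (by positivity), norm_phi_le π' W hW, ?_, ?_⟩
  · intro b
    have h1 := norm_psi_le hπ y hqsa (by positivity : (0 : ℝ) ≤ 1 + 2 * η) hC b
    have h2 : ‖ψ b‖ = (1 + 2 * η)⁻¹ * ‖Psi y (q * b * q)‖ := by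
      show ‖(((1 + 2 * η)⁻¹ : ℝ) : ℂ) • Psi y (q * b * q)‖ = _
      rw [norm_smul, Complex.norm_real, Real.norm_of_nonneg (by positivity)]
    rw [h2, inv_mul_le_iff₀ (by positivity)]
    exact h1
  · intro c
    show (((1 + 2 * η)⁻¹ : ℝ) : ℂ) • Psi y (q * (ContinuousLinearMap.adjoint W ∘L π' c ∘L W) * q) = _
    congr 1
    have h1 : q * (ContinuousLinearMap.adjoint W ∘L π' c ∘L W) * q =
        ContinuousLinearMap.adjoint V ∘L π' c ∘L V := by
      refine ContinuousLinearMap.ext fun x => ?_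
      refine ext_inner_left ℂ fun z => ?_
      have hqa2 : ContinuousLinearMap.adjoint q = q := by
        rw [← ContinuousLinearMap.star_eq_adjoint]; exact hqsa
      have e1 : ∀ x, W (q x) = V x := by
        intro x
        have : W (q x) = V ((q' * q) x) := rfl
        rw [this, hq'q]; rfl
      calc ⟪z, (q * (ContinuousLinearMap.adjoint W ∘L π' c ∘L W) * q) x⟫_ℂ =
          ⟪z, q (ContinuousLinearMap.adjoint W (π' c (W (q x))))⟫_ℂ := rfl
        _ = ⟪q z, ContinuousLinearMap.adjoint W (π' c (W (q x)))⟫_ℂ := by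
            conv_lhs => rw [← hqa2]
            rw [ContinuousLinearMap.adjoint_inner_right, hqa2]
        _ = ⟪z, (ContinuousLinearMap.adjoint V ∘L π' c ∘L V) x⟫_ℂ := by
            rw [ContinuousLinearMap.adjoint_inner_right, e1, e1, ContinuousLinearMap.comp_apply,
              ContinuousLinearMap.adjoint_inner_right]
            rfl
    rw [h1, Psi_apply]
    simp only [ContinuousLinearMap.comp_apply, ContinuousLinearMap.adjoint_inner_right, hV, Vop_ee]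

end Pool.Agent.Sub70.SX
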