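import Mathlib
import Pool.Agent.Sub70.SX.Factor

/-!
# C*-algebras with subexponential filtrations are nuclear
-/

set_option autoImplicit false
set_option linter.unusedSectionVars false

open scoped ComplexOrder InnerProductSpace ComplexConjugate TensorProduct Topology ComplexStarModule
open Finset TensorProduct Module Filter

noncomputable section

namespace Pool.Agent.Sub70.SX

theorem norm_one_le' (A : Type) [CStarAlgebra A] : ‖(1 : A)‖ ≤ 1 := by
  rcases subsingleton_or_nontrivial A with h | h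
  · rw [Subsingleton.elim (1 : A) 0, norm_zero]; exact zero_le_one
  · exact (CStarRing.norm_one).le

theorem realPart_mem {A : Type} [CStarAlgebra A] {V : Submodule ℂ A} (hV : ∀ x ∈ V, star x ∈ V)
    {x : A} (hx : x ∈ V) : (ℜ x : A) ∈ V := by
  rw [realPart_apply_coe]
  have h : (2⁻¹ : ℝ) • (x + star x) = ((2⁻¹ : ℝ) : ℂ) • (x + star x) :=
    (Complex.coe_smul (2⁻¹ : ℝ) _).symm
  rw [h]
  exact V.smul_mem _ (V.add_mem hx (hV x hx))

theorem imaginaryPart_mem {A : Type} [CStarAlgebra A] {V : Submodule ℂ A}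
    (hV : ∀ x ∈ V, star x ∈ V) {x : A} (hx : x ∈ V) : (ℑ x : A) ∈ V := by
  rw [imaginaryPart_apply_coe]
  have h : (2⁻¹ : ℝ) • (x - star x) = ((2⁻¹ : ℝ) : ℂ) • (x - star x) :=
    (Complex.coe_smul (2⁻¹ : ℝ) _).symm
  rw [h]
  exact V.smul_mem _ (V.smul_mem _ (V.sub_mem hx (hV x hx)))

/-- The form of `mapOf` needed for the normalisation. -/
theorem mapOf_eq {A : Type} [CStarAlgebra A] {K : Type} [NormedAddCommGroup K]
    [InnerProductSpace ℂ K] [CompleteSpace K] (π : A →⋆ₐ[ℂ] (K →L[ℂ] K)) {I : Type} [Fintype I]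
    {J : Type} [DecidableEq J] (β : I → J) (α : I → K) (y : I → A) (c : A) :
    ∑ i : Fin (Fintype.card I), ∑ l : Fin (Fintype.card I),
      ⟪(lp.single 2 (β ((Fintype.equivFin I).symm l)) (α ((Fintype.equivFin I).symm l)) :
          lp (fun _ : J => K) 2),
        dsG (fun _ : J => K) (fun _ => π) c
          (lp.single 2 (β ((Fintype.equivFin I).symm i)) (α ((Fintype.equivFin I).symm i)))⟫_ℂ •
        (star (y ((Fintype.equivFin I).symm l)) * y ((Fintype.equivFin I).symm i)) =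
      mapOf π β α y c := by
  classical
  rw [mapOf, ← Equiv.sum_comp (Fintype.equivFin I).symm]
  refine Finset.sum_congr rfl fun i _ => ?_
  rw [← Equiv.sum_comp (Fintype.equivFin I).symm]
  refine Finset.sum_congr rfl fun l _ => ?_
  rw [lp.inner_single_left, dsG_apply]
  by_cases h : β ((Fintype.equivFin I).symm i) = β ((Fintype.equivFin I).symm l)
  · rw [if_pos h, h, lp.single_apply_self]
  · rw [if_neg h, lp.single_apply_ne _ _ _ (Ne.symm h), map_zero, inner_zero_right, zero_smul]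

theorem main (A : Type) [CStarAlgebra A] (F : ℕ → Submodule ℂ A)
    (hmono : Monotone F) (h0 : F 0 = Submodule.span ℂ {(1 : A)})
    (hmul : ∀ m n : ℕ, ∀ x ∈ F m, ∀ y ∈ F n, x * y ∈ F (m + n))
    (hstar : ∀ n : ℕ, ∀ x ∈ F n, star x ∈ F n)
    (hdense : Dense (⋃ n : ℕ, (F n : Set A)))
    (hfin : ∀ n : ℕ, FiniteDimensional ℂ (F n))
    (hgrow : Filter.Tendsto (fun n : ℕ => ((Module.finrank ℂ (F n) : ℕ) : ℝ) ^ (1 / (n : ℝ)))
      Filter.atTop (nhds 1)) (S : Finset A) (ε : ℝ) (hε : 0 < ε) :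
    ∃ (k : ℕ)
      (φ : A →ₗ[ℂ] (EuclideanSpace ℂ (Fin k) →L[ℂ] EuclideanSpace ℂ (Fin k)))
      (ψ : (EuclideanSpace ℂ (Fin k) →L[ℂ] EuclideanSpace ℂ (Fin k)) →ₗ[ℂ] A),
      CPos φ ∧ CPos ψ ∧ (∀ a : A, ‖φ a‖ ≤ ‖a‖) ∧
      (∀ b : EuclideanSpace ℂ (Fin k) →L[ℂ] EuclideanSpace ℂ (Fin k), ‖ψ b‖ ≤ ‖b‖) ∧
      ∀ a ∈ S, ‖ψ (φ a) - a‖ < ε := by
  classical
  have hone : (1 : A) ∈ F 0 := by rw [h0]; exact Submodule.mem_span_singleton_self 1
  obtain ⟨K, _, _, _, π, hπ⟩ := exists_rep A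
  -- approximation by elements of the filtration
  have happ : ∀ a : A, ∃ b : A, ∃ n : ℕ, b ∈ F n ∧ ‖a - b‖ < ε / 4 := by
    intro a
    obtain ⟨b, hb1, hb2⟩ := Metric.mem_closure_iff.1 (hdense a) (ε / 4) (by positivity)
    obtain ⟨n, hn⟩ := Set.mem_iUnion.1 hb1
    exact ⟨b, n, hn, by rwa [dist_eq_norm] at hb2⟩
  choose b nn hbn hb using happ
  let m : ℕ := S.sup nn
  have hbm : ∀ a ∈ S, b a ∈ F m := fun a ha => hmono (Finset.le_sup ha) (hbn a)
  let M : ℝ := ∑ a ∈ S, ‖a‖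
  have hM : ∀ a ∈ S, ‖a‖ ≤ M := fun a ha =>
    Finset.single_le_sum (f := fun a => ‖a‖) (fun a _ => norm_nonneg a) ha
  have hM0 : 0 ≤ M := Finset.sum_nonneg fun a _ => norm_nonneg a
  let η : ℝ := ε / (8 * (1 + M + ε))
  have hη : 0 < η := by positivity
  have hη2 : 2 * η * (1 + M + ε) = ε / 4 := by
    simp only [η]
    field_simp
    ring
  -- the family
  let T : Finset A := insert 1 (S.image (fun a => (ℜ (b a) : A)) ∪ S.image fun a => (ℑ (b a) : A))
  let s : Fin T.card → A := fun j => (T.equivFin.symm j : A)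
  have hTs : ∀ x ∈ T, ∃ j, s j = x := by
    intro x hx
    exact ⟨T.equivFin ⟨x, hx⟩, by simp [s]⟩
  have hsT : ∀ j, s j ∈ T := fun j => (T.equivFin.symm j).2
  have hTprop : ∀ x ∈ T, IsSelfAdjoint x ∧ x ∈ F m := by
    intro x hx
    simp only [T, Finset.mem_insert, Finset.mem_union, Finset.mem_image] at hx
    rcases hx with rfl | ⟨a, ha, rfl⟩ | ⟨a, ha, rfl⟩
    · exact ⟨IsSelfAdjoint.one A, hmono (Nat.zero_le m) hone⟩
    · exact ⟨(ℜ (b a)).2, realPart_mem (hstar m) (hbm a ha)⟩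
    · exact ⟨(ℑ (b a)).2, imaginaryPart_mem (hstar m) (hbm a ha)⟩
  have hcl := mem_closure_vals hπ hmono hone hmul hfin hgrow s (fun j => (hTprop _ (hsT j)).1)
    (fun j => (hTprop _ (hsT j)).2)
  obtain ⟨v, hv, hvs⟩ := Metric.mem_closure_iff.1 hcl η hη
  obtain ⟨I, _, J, _, _, β, α, y, hv⟩ := hv
  have happrox : ∀ x ∈ T, ‖mapOf π β α y x - x‖ < η := by
    intro x hx
    obtain ⟨j, rfl⟩ := hTs x hx
    rw [← hv j, ← dist_eq_norm, dist_comm]
    exact (dist_le_pi_dist s v j).trans_lt hvs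
  have h1T : (1 : A) ∈ T := Finset.mem_insert_self _ _
  let α' : Fin (Fintype.card I) → lp (fun _ : J => K) 2 := fun i =>
    lp.single 2 (β ((Fintype.equivFin I).symm i)) (α ((Fintype.equivFin I).symm i))
  let y' : Fin (Fintype.card I) → A := fun i => y ((Fintype.equivFin I).symm i)
  have hmap : ∀ c, ∑ i, ∑ l, ⟪α' l, dsG (fun _ : J => K) (fun _ => π) c (α' i)⟫_ℂ •
      (star (y' l) * y' i) = mapOf π β α y c := fun c => mapOf_eq π β α y c
  have hT1 : ‖∑ i, ∑ l, ⟪α' l, α' i⟫_ℂ • (star (y' l) * y' i)‖ ≤ 1 + η := by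
    have h1 := hmap 1
    rw [map_one] at h1
    have h2 : ∑ i, ∑ l, ⟪α' l, α' i⟫_ℂ • (star (y' l) * y' i) = mapOf π β α y 1 := h1
    rw [h2]
    have h3 := happrox 1 h1T
    calc ‖mapOf π β α y 1‖ = ‖1 + (mapOf π β α y 1 - 1)‖ := by rw [add_sub_cancel]
      _ ≤ ‖(1 : A)‖ + ‖mapOf π β α y 1 - 1‖ := norm_add_le _ _
      _ ≤ 1 + η := add_le_add (norm_one_le' A) h3.le
  obtain ⟨φ, ψ, hφ, hψ, hφn, hψn, hψφ⟩ :=
    exists_factor hπ (dsG (fun _ : J => K) (fun _ => π)) α' y' hη hT1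
  refine ⟨_, φ, ψ, hφ, hψ, hφn, hψn, fun a ha => ?_⟩
  set t : ℝ := (1 + 2 * η)⁻¹ with ht
  have ht0 : 0 < t := by positivity
  have ht1 : t ≤ 1 := by
    rw [ht]
    exact inv_le_one_of_one_le₀ (by linarith)
  have ht2 : 1 - t ≤ 2 * η := by
    have : t * (1 + 2 * η) = 1 := inv_mul_cancel₀ (by positivity)
    nlinarith
  have hψφ' : ∀ c, ψ (φ c) = (t : ℂ) • mapOf π β α y c := fun c => by rw [hψφ, hmap]
  -- the value at `b a`
  have hx : ‖ψ (φ (ℜ (b a) : A)) - (t : ℂ) • (ℜ (b a) : A)‖ ≤ η := by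
    rw [hψφ', ← smul_sub, norm_smul, Complex.norm_real, Real.norm_of_nonneg ht0.le]
    have h1 := happrox (ℜ (b a) : A) (by
      simp only [T, Finset.mem_insert, Finset.mem_union, Finset.mem_image]
      exact Or.inr (Or.inl ⟨a, ha, rfl⟩))
    nlinarith [norm_nonneg (mapOf π β α y (ℜ (b a) : A) - (ℜ (b a) : A))]
  have hz : ‖ψ (φ (ℑ (b a) : A)) - (t : ℂ) • (ℑ (b a) : A)‖ ≤ η := by
    rw [hψφ', ← smul_sub, norm_smul, Complex.norm_real, Real.norm_of_nonneg ht0.le]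
    have h1 := happrox (ℑ (b a) : A) (by
      simp only [T, Finset.mem_insert, Finset.mem_union, Finset.mem_image]
      exact Or.inr (Or.inr ⟨a, ha, rfl⟩))
    nlinarith [norm_nonneg (mapOf π β α y (ℑ (b a) : A) - (ℑ (b a) : A))]
  have hba : ‖ψ (φ (b a)) - (t : ℂ) • b a‖ ≤ 2 * η := by
    have h1 : ψ (φ (b a)) - (t : ℂ) • b a =
        (ψ (φ (ℜ (b a) : A)) - (t : ℂ) • (ℜ (b a) : A)) +
          Complex.I • (ψ (φ (ℑ (b a) : A)) - (t : ℂ) • (ℑ (b a) : A)) := by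
      conv_lhs => rw [← realPart_add_I_smul_imaginaryPart (b a)]
      rw [map_add, map_add, map_smul, map_smul, smul_add, smul_sub, smul_comm (t : ℂ) Complex.I]
      abel
    rw [h1]
    refine (norm_add_le _ _).trans ?_
    rw [norm_smul, Complex.norm_I, one_mul]
    linarith
  have hbn : ‖b a‖ ≤ M + ε := by
    calc ‖b a‖ = ‖a - (a - b a)‖ := by rw [sub_sub_cancel]
      _ ≤ ‖a‖ + ‖a - b a‖ := norm_sub_le _ _
      _ ≤ M + ε := by linarith [hM a ha, hb a]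
  have hba2 : ‖ψ (φ (b a)) - b a‖ ≤ ε / 4 := by
    have h1 : ψ (φ (b a)) - b a = (ψ (φ (b a)) - (t : ℂ) • b a) - ((1 - t : ℝ) : ℂ) • b a := by
      rw [Complex.ofReal_sub, sub_smul, Complex.ofReal_one, one_smul]
      abel
    rw [h1]
    refine (norm_sub_le _ _).trans ?_
    rw [norm_smul, Complex.norm_real, Real.norm_of_nonneg (by linarith)]
    have h2 : (1 - t) * ‖b a‖ ≤ 2 * η * (M + ε) :=
      mul_le_mul ht2 hbn (norm_nonneg _) (by positivity)
    have h3 : 2 * η * (1 + M + ε) = 2 * η + 2 * η * (M + ε) := by ring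
    linarith
  have hfin1 : ‖ψ (φ (a - b a))‖ ≤ ‖a - b a‖ := (hψn _).trans (hφn _)
  have h1 : ψ (φ a) - a = ψ (φ (a - b a)) + (ψ (φ (b a)) - b a) - (a - b a) := by
    rw [map_sub, map_sub]
    abel
  rw [h1]
  refine (norm_sub_le _ _).trans_lt ?_
  have h2 := norm_add_le (ψ (φ (a - b a))) (ψ (φ (b a)) - b a)
  have h3 := hb a
  linarith

end Pool.Agent.Sub70.SX
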